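import Pool.Agent.TH937.FF4.Defs
set_option autoImplicit false
namespace Pool.Agent.TH937.FF4
open Set Filter Topology
open Pool.Agent.TH937.ZC (QL RCc)
open scoped ComplexConjugate

private theorem ang_norm {p x t : ℝ} (hx : |x| ≤ 1) :
    ‖((p : ℂ) + t • (⟨x, Real.sqrt (1 - x ^ 2)⟩ : ℂ))‖
      = Real.sqrt (p ^ 2 + 2 * t * x * p + t ^ 2) := by
  have hx2 : x ^ 2 ≤ 1 := by
    have := abs_le.mp hx
    nlinarith [this.1, this.2]
  have h1 : Real.sqrt (1 - x ^ 2) ^ 2 = 1 - x ^ 2 := Real.sq_sqrt (by linarith)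
  rw [Complex.norm_def, Complex.normSq_apply]
  congr 1
  simp only [Complex.add_re, Complex.add_im, Complex.real_smul, Complex.mul_re, Complex.mul_im,
    Complex.ofReal_re, Complex.ofReal_im, zero_mul, sub_zero, add_zero, zero_add]
  linear_combination t ^ 2 * h1

private theorem ang_unit {x : ℝ} (hx : |x| ≤ 1) : ‖(⟨x, Real.sqrt (1 - x ^ 2)⟩ : ℂ)‖ = 1 := by
  have h := ang_norm (p := 0) (t := 1) hx
  simpa using h

private theorem ang_dP {p x t : ℝ} (h : 0 < p ^ 2 + 2 * t * x * p + t ^ 2) :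
    HasDerivAt (fun t => Real.sqrt (p ^ 2 + 2 * t * x * p + t ^ 2))
      ((x * p + t) / Real.sqrt (p ^ 2 + 2 * t * x * p + t ^ 2)) t := by
  have h1 : HasDerivAt (fun t : ℝ => p ^ 2 + 2 * t * x * p + t ^ 2) (2 * (x * p + t)) t := by
    have h3 : HasDerivAt (fun t : ℝ => 2 * t * x * p) (2 * 1 * x * p) t :=
      (((hasDerivAt_id' t).const_mul 2).mul_const x).mul_const p
    have h4 : HasDerivAt (fun t : ℝ => t ^ 2) (2 * t) t := by
      simpa using hasDerivAt_pow 2 t
    have h5 := (h3.const_add (p ^ 2)).add h4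
    exact h5.congr_deriv (by ring)
  have h2 := h1.sqrt h.ne'
  refine h2.congr_deriv ?_
  have hs : Real.sqrt (p ^ 2 + 2 * t * x * p + t ^ 2) ≠ 0 := (Real.sqrt_pos.mpr h).ne'
  field_simp

private theorem ang_dg {D : Da} (hD : Reg D) {S V : ℝ → ℝ} {S' V' t : ℝ}
    (hS : HasDerivAt S S' t) (hV : HasDerivAt V V' t) :
    HasDerivAt (fun t => D.g (S t) (V t))
      (D.gs (S t) (V t) * S' + D.gv (S t) (V t) * V') t := by
  have ha := (hD.a1 (V t)).comp t hV
  have hb := (hD.b1 (V t)).comp t hV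
  have hh := (hD.h1 (S t)).comp t hS
  have hc := (hD.c1 (S t)).comp t hS
  have h := (((ha.mul hS).add hb).add hh).add (hc.mul hV)
  refine HasDerivAt.congr_deriv (f := fun t => D.g (S t) (V t)) h ?_
  simp only [Da.gs, Da.gv, Function.comp]
  ring

private theorem ang_dgs {D : Da} (hD : Reg D) {S V : ℝ → ℝ} {S' V' t : ℝ}
    (hS : HasDerivAt S S' t) (hV : HasDerivAt V V' t) :
    HasDerivAt (fun t => D.gs (S t) (V t))
      (D.gss (S t) (V t) * S' + D.gsv (S t) (V t) * V') t := by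
  have ha := (hD.a1 (V t)).comp t hV
  have hh := (hD.h2 (S t)).comp t hS
  have hc := (hD.c2 (S t)).comp t hS
  have h := (ha.add hh).add (hc.mul hV)
  refine HasDerivAt.congr_deriv (f := fun t => D.gs (S t) (V t)) h ?_
  simp only [Da.gss, Da.gsv, Function.comp]
  ring

private theorem ang_dgv {D : Da} (hD : Reg D) {S V : ℝ → ℝ} {S' V' t : ℝ}
    (hS : HasDerivAt S S' t) (hV : HasDerivAt V V' t) :
    HasDerivAt (fun t => D.gv (S t) (V t))
      (D.gsv (S t) (V t) * S' + D.gvv (S t) (V t) * V') t := by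
  have ha := (hD.a2 (V t)).comp t hV
  have hb := (hD.b2 (V t)).comp t hV
  have hc := (hD.c1 (S t)).comp t hS
  have h := ((ha.mul hS).add hb).add hc
  refine HasDerivAt.congr_deriv (f := fun t => D.gv (S t) (V t)) h ?_
  simp only [Da.gsv, Da.gvv, Function.comp]
  ring

/-- a convex function whose derivative near `0` is differentiable at `0` -/
private theorem ang_conv {φ ψ : ℝ → ℝ} {m : ℝ}
    (hc : ∀ r s l : ℝ, 0 ≤ l → l ≤ 1 → φ (r + l * (s - r)) ≤ (1 - l) * φ r + l * φ s)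
    (hd : ∀ᶠ t in 𝓝 (0 : ℝ), HasDerivAt φ (ψ t) t) (hm : HasDerivAt ψ m 0) : 0 ≤ m := by
  have hcv : ConvexOn ℝ univ φ := by
    refine ⟨convex_univ, ?_⟩
    intro r _ s _ a b ha hb hab
    have h := hc r s b hb (by linarith)
    have e1 : a • r + b • s = r + b * (s - r) := by
      simp only [smul_eq_mul]
      have : a = 1 - b := by linarith
      rw [this]; ring
    have e2 : a = 1 - b := by linarith
    rw [e1]
    simp only [smul_eq_mul]
    rw [e2]
    exact h
  have h0 : HasDerivAt φ (ψ 0) 0 := hd.self_of_nhds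
  have hsl : Tendsto (slope ψ 0) (𝓝[>] 0) (𝓝 m) :=
    (hasDerivAt_iff_tendsto_slope.mp hm).mono_left
      (nhdsWithin_mono _ (fun t ht => ne_of_gt ht))
  refine ge_of_tendsto hsl ?_
  have hev : ∀ᶠ t in 𝓝[>] (0 : ℝ), HasDerivAt φ (ψ t) t := hd.filter_mono nhdsWithin_le_nhds
  filter_upwards [hev, self_mem_nhdsWithin] with t ht ht0
  have ht0' : (0 : ℝ) < t := ht0
  have i1 : ψ 0 ≤ slope φ 0 t := hcv.le_slope_of_hasDerivAt (mem_univ _) (mem_univ _) ht0' h0
  have i2 : slope φ 0 t ≤ ψ t := hcv.slope_le_of_hasDerivAt (mem_univ _) (mem_univ _) ht0' ht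
  rw [slope_def_field]
  apply div_nonneg
  · linarith
  · linarith

theorem ang {D : Da} (hD : Reg D) (hR : RCc D.w) {p q x y : ℝ} (hp : 0 < p) (hq : 0 < q)
    (hx : |x| ≤ 1) (hy : |y| ≤ 1) :
    0 ≤ (D.gss (p + q) (p - q) + 2 * D.gsv (p + q) (p - q) + D.gvv (p + q) (p - q)) * x ^ 2
      + 2 * (D.gss (p + q) (p - q) - D.gvv (p + q) (p - q)) * (x * y)
      + (D.gss (p + q) (p - q) - 2 * D.gsv (p + q) (p - q) + D.gvv (p + q) (p - q)) * y ^ 2
      + (D.gs (p + q) (p - q) + D.gv (p + q) (p - q)) * (1 - x ^ 2) / p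
      + (D.gs (p + q) (p - q) - D.gv (p + q) (p - q)) * (1 - y ^ 2) / q := by
  set P : ℝ → ℝ := fun t => Real.sqrt (p ^ 2 + 2 * t * x * p + t ^ 2) with hPdef
  set Q : ℝ → ℝ := fun t => Real.sqrt (q ^ 2 + 2 * t * y * q + t ^ 2) with hQdef
  have hP0 : P 0 = p := by
    simp only [hPdef]
    rw [show p ^ 2 + 2 * 0 * x * p + 0 ^ 2 = p ^ 2 by ring, Real.sqrt_sq hp.le]
  have hQ0 : Q 0 = q := by
    simp only [hQdef]
    rw [show q ^ 2 + 2 * 0 * y * q + 0 ^ 2 = q ^ 2 by ring, Real.sqrt_sq hq.le]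
  set H : ℂ × ℂ := ((⟨x, Real.sqrt (1 - x ^ 2)⟩ : ℂ), (⟨y, Real.sqrt (1 - y ^ 2)⟩ : ℂ)) with hH
  set F : ℂ × ℂ := ((p : ℂ), (q : ℂ)) with hF
  have hw : ∀ t : ℝ, D.w (F + t • H) = D.g (P t + Q t) (P t - Q t) := by
    intro t
    have e1 : ‖(F + t • H).1‖ = P t := ang_norm hx
    have e2 : ‖(F + t • H).2‖ = Q t := ang_norm hy
    simp only [Da.w]
    rw [e1, e2]
  have hconv : ∀ r s l : ℝ, 0 ≤ l → l ≤ 1 →
      (fun t => D.g (P t + Q t) (P t - Q t)) (r + l * (s - r))
        ≤ (1 - l) * (fun t => D.g (P t + Q t) (P t - Q t)) r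
          + l * (fun t => D.g (P t + Q t) (P t - Q t)) s := by
    intro r s l hl0 hl1
    have hn : ‖((s - r) • H).1‖ = ‖((s - r) • H).2‖ := by
      simp only [hH, Prod.smul_fst, Prod.smul_snd, norm_smul]
      rw [ang_unit hx, ang_unit hy]
    have h := hR (F + r • H) ((s - r) • H) hn l hl0 hl1
    have e1 : F + r • H + l • ((s - r) • H) = F + (r + l * (s - r)) • H := by
      rw [smul_smul, add_assoc, ← add_smul]
    have e2 : F + r • H + (s - r) • H = F + s • H := by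
      rw [add_assoc, ← add_smul]
      congr 2
      ring
    rw [e1, e2, hw, hw, hw] at h
    exact h
  have hposP : ∀ᶠ t in 𝓝 (0 : ℝ), 0 < p ^ 2 + 2 * t * x * p + t ^ 2 := by
    have hcont : Continuous (fun t : ℝ => p ^ 2 + 2 * t * x * p + t ^ 2) := by fun_prop
    apply hcont.continuousAt.eventually (lt_mem_nhds _)
    have : 0 < p ^ 2 := by positivity
    simpa using this
  have hposQ : ∀ᶠ t in 𝓝 (0 : ℝ), 0 < q ^ 2 + 2 * t * y * q + t ^ 2 := by
    have hcont : Continuous (fun t : ℝ => q ^ 2 + 2 * t * y * q + t ^ 2) := by fun_prop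
    apply hcont.continuousAt.eventually (lt_mem_nhds _)
    have : 0 < q ^ 2 := by positivity
    simpa using this
  have hd : ∀ᶠ t in 𝓝 (0 : ℝ), HasDerivAt (fun t => D.g (P t + Q t) (P t - Q t))
      (D.gs (P t + Q t) (P t - Q t) * ((x * p + t) / P t + (y * q + t) / Q t)
        + D.gv (P t + Q t) (P t - Q t) * ((x * p + t) / P t - (y * q + t) / Q t)) t := by
    filter_upwards [hposP, hposQ] with t h1 h2
    exact ang_dg hD (S := fun t => P t + Q t) (V := fun t => P t - Q t)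
      ((ang_dP h1).add (ang_dP h2)) ((ang_dP h1).sub (ang_dP h2))
  have hp0 : 0 < p ^ 2 + 2 * 0 * x * p + 0 ^ 2 := hposP.self_of_nhds
  have hq0 : 0 < q ^ 2 + 2 * 0 * y * q + 0 ^ 2 := hposQ.self_of_nhds
  have dP : HasDerivAt P x 0 := by
    have h := ang_dP hp0
    have e : (x * p + 0) / Real.sqrt (p ^ 2 + 2 * 0 * x * p + 0 ^ 2) = x := by
      have : Real.sqrt (p ^ 2 + 2 * 0 * x * p + 0 ^ 2) = p := hP0
      rw [this]
      field_simp
      ring
    rw [e] at h
    exact h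
  have dQ : HasDerivAt Q y 0 := by
    have h := ang_dP hq0
    have e : (y * q + 0) / Real.sqrt (q ^ 2 + 2 * 0 * y * q + 0 ^ 2) = y := by
      have : Real.sqrt (q ^ 2 + 2 * 0 * y * q + 0 ^ 2) = q := hQ0
      rw [this]
      field_simp
      ring
    rw [e] at h
    exact h
  have dP2 : HasDerivAt (fun t => (x * p + t) / P t) ((1 - x ^ 2) / p) 0 := by
    have hn : HasDerivAt (fun t : ℝ => x * p + t) 1 0 := (hasDerivAt_id' (0 : ℝ)).const_add (x * p)
    have h := hn.div dP (by rw [hP0]; exact hp.ne')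
    refine HasDerivAt.congr_deriv (f := fun t => (x * p + t) / P t) h ?_
    rw [hP0]
    field_simp
    ring
  have dQ2 : HasDerivAt (fun t => (y * q + t) / Q t) ((1 - y ^ 2) / q) 0 := by
    have hn : HasDerivAt (fun t : ℝ => y * q + t) 1 0 := (hasDerivAt_id' (0 : ℝ)).const_add (y * q)
    have h := hn.div dQ (by rw [hQ0]; exact hq.ne')
    refine HasDerivAt.congr_deriv (f := fun t => (y * q + t) / Q t) h ?_
    rw [hQ0]
    field_simp
    ring
  have dgs := ang_dgs hD (S := fun t => P t + Q t) (V := fun t => P t - Q t)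
      (dP.add dQ) (dP.sub dQ)
  have dgv := ang_dgv hD (S := fun t => P t + Q t) (V := fun t => P t - Q t)
      (dP.add dQ) (dP.sub dQ)
  have dfin := (dgs.mul (dP2.add dQ2)).add (dgv.mul (dP2.sub dQ2))
  have hfin := ang_conv hconv hd dfin
  refine hfin.trans_eq ?_
  simp only [Pi.add_apply, Pi.sub_apply, hP0, hQ0, add_zero]
  field_simp
  ring

end Pool.Agent.TH937.FF4
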