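import Pool.Agent.TH937.ZC.Roc

/-!
# Morrey's problem for `W = a(v) s + b(v) + h(s) + c(s) v`: definitions

`s` is the operator norm of a real `2 × 2` matrix and `v` its determinant divided by `s`; in complex
notation `s = |u_z| + |u_zbar|`, `v = |u_z| - |u_zbar|`.
-/

set_option autoImplicit false

namespace Pool.Agent.TH937.FF4

open Set Filter Topology
open Pool.Agent.TH937.ZC (QL RCc)

/-- coefficient functions with candidates for their first and second derivatives -/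
structure Da where
  a : ℝ → ℝ
  b : ℝ → ℝ
  h : ℝ → ℝ
  c : ℝ → ℝ
  a1 : ℝ → ℝ
  b1 : ℝ → ℝ
  h1 : ℝ → ℝ
  c1 : ℝ → ℝ
  a2 : ℝ → ℝ
  b2 : ℝ → ℝ
  h2 : ℝ → ℝ
  c2 : ℝ → ℝ

namespace Da

variable (D : Da)

def g (s v : ℝ) : ℝ := D.a v * s + D.b v + D.h s + D.c s * v
def gs (s v : ℝ) : ℝ := D.a v + D.h1 s + D.c1 s * v
def gv (s v : ℝ) : ℝ := D.a1 v * s + D.b1 v + D.c s
def gsv (s v : ℝ) : ℝ := D.a1 v + D.c1 s
def gss (s v : ℝ) : ℝ := D.h2 s + D.c2 s * v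
def gvv (s v : ℝ) : ℝ := D.a2 v * s + D.b2 v
def X (s v : ℝ) : ℝ := D.gs s v + D.gv s v - (s + v) * D.gsv s v
def Y (s v : ℝ) : ℝ := D.gs s v - D.gv s v + (s - v) * D.gsv s v

/-- the function of the matrix, in the variables `(u_z, u_zbar)` -/
noncomputable def w (F : ℂ × ℂ) : ℝ := D.g (‖F.1‖ + ‖F.2‖) (‖F.1‖ - ‖F.2‖)

/-- `a(v) s + b(v)` is replaced below `r` by its tangent at `v = r` -/
def low (r s v : ℝ) : ℝ :=
  (D.a r + D.a1 r * (v - r)) * s + (D.b r + D.b1 r * (v - r)) + D.h s + D.c s * v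

/-- the slope of the supporting function -/
noncomputable def kk (s v : ℝ) : ℝ := D.gsv s v + min (D.X s v) 0 / (s + v)

/-- the bilinear supporting function at `(r, u)` -/
noncomputable def lt (r u s v : ℝ) : ℝ :=
  D.g r u + D.gs r u * (s - r) + D.gv r u * (v - u) + D.kk r u * ((s - r) * (v - u))

/-- the right hand side of the differential equation of the curve -/
noncomputable def fm (s v : ℝ) : ℝ := min (D.X s v) 0 / ((s + v) * D.gvv s v)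

/-- the reflected function -/
def mirror : Da where
  a := fun v => D.a (-v)
  b := fun v => D.b (-v)
  h := D.h
  c := fun s => -D.c s
  a1 := fun v => -D.a1 (-v)
  b1 := fun v => -D.b1 (-v)
  h1 := D.h1
  c1 := fun s => -D.c1 s
  a2 := fun v => D.a2 (-v)
  b2 := fun v => D.b2 (-v)
  h2 := D.h2
  c2 := fun s => -D.c2 s

/-- add `η (s ^ 2 + v ^ 2) / 2` -/
noncomputable def pert (η : ℝ) : Da where
  a := D.a
  b := fun v => D.b v + η * v ^ 2 / 2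
  h := fun s => D.h s + η * s ^ 2 / 2
  c := D.c
  a1 := D.a1
  b1 := fun v => D.b1 v + η * v
  h1 := fun s => D.h1 s + η * s
  c1 := D.c1
  a2 := D.a2
  b2 := fun v => D.b2 v + η
  h2 := fun s => D.h2 s + η
  c2 := D.c2

end Da

/-- the derivatives, and local Lipschitz continuity of `a2`, `b2` -/
structure Reg (D : Da) : Prop where
  a1 : ∀ x, HasDerivAt D.a (D.a1 x) x
  b1 : ∀ x, HasDerivAt D.b (D.b1 x) x
  h1 : ∀ x, HasDerivAt D.h (D.h1 x) x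
  c1 : ∀ x, HasDerivAt D.c (D.c1 x) x
  a2 : ∀ x, HasDerivAt D.a1 (D.a2 x) x
  b2 : ∀ x, HasDerivAt D.b1 (D.b2 x) x
  h2 : ∀ x, HasDerivAt D.h1 (D.h2 x) x
  c2 : ∀ x, HasDerivAt D.c1 (D.c2 x) x
  la : ∀ R : ℝ, ∃ L : ℝ, ∀ x y, |x| ≤ R → |y| ≤ R → |D.a2 x - D.a2 y| ≤ L * |x - y|
  lb : ∀ R : ℝ, ∃ L : ℝ, ∀ x y, |x| ≤ R → |y| ≤ R → |D.b2 x - D.b2 y| ≤ L * |x - y|

/-- the consequences of rank-one convexity that are used -/
structure Cn (D : Da) (η : ℝ) : Prop where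
  ss : ∀ s v, |v| ≤ s → 0 < s → 0 ≤ D.gss s v
  vv : ∀ s v, |v| ≤ s → 0 < s → η ≤ D.gvv s v
  x0 : ∀ s v, |v| ≤ s → 0 < s → v ≤ 0 → 0 ≤ D.X s v
  y0 : ∀ s v, |v| ≤ s → 0 < s → 0 ≤ v → 0 ≤ D.Y s v
  al : ∀ s v, |v| < s → 0 ≤ s * D.gs s v - v * D.gv s v
  rx : ∀ s v l, |v| < s → 0 ≤ l →
    0 ≤ D.gss s v + l ^ 2 * D.gvv s v + 2 * l * D.X s v / (s + v)
  tl : ∀ p0 q0 p q, 0 < p0 → 0 < q0 → 0 ≤ p → 0 ≤ q → |p - p0| ≤ |q - q0| → |q - q0| ≤ p + p0 →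
    D.g (p0 + q0) (p0 - q0)
      + (D.gs (p0 + q0) (p0 - q0) + D.gv (p0 + q0) (p0 - q0))
        * ((p ^ 2 - p0 ^ 2 - (q - q0) ^ 2) / (2 * p0))
      + (D.gs (p0 + q0) (p0 - q0) - D.gv (p0 + q0) (p0 - q0)) * (q - q0) ≤ D.g (p + q) (p - q)

/-- the curve -/
structure Cv (D : Da) (s0 v0 S : ℝ) (γ : ℝ → ℝ) : Prop where
  v0pos : 0 < v0
  hv : v0 < s0
  hS : s0 < S
  ini : γ s0 = v0
  bd : ∀ s ∈ Icc s0 S, 0 ≤ γ s ∧ γ s ≤ v0
  de : ∀ s ∈ Icc s0 S, HasDerivWithinAt γ (D.fm s (γ s)) (Icc s0 S) s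

end Pool.Agent.TH937.FF4
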