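import Pool.Agent.TH937.FF4.Defs
set_option autoImplicit false
namespace Pool.Agent.TH937.FF4
open Set Filter Topology
open Pool.Agent.TH937.ZC (QL RCc)
open scoped ComplexConjugate

theorem der {D : Da} {η : ℝ} (hD : Reg D) (hc : Cn D η) (hη : 0 < η) {s0 v0 S : ℝ}
    {γ : ℝ → ℝ} (hγ : Cv D s0 v0 S γ) {s : ℝ} (hs : s ∈ Icc s0 S) :
    HasDerivWithinAt (fun s => D.gv s (γ s)) (D.kk s (γ s)) (Icc s0 S) s ∧
    HasDerivWithinAt (fun s => D.g s (γ s) - γ s * D.gv s (γ s))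
      (D.gs s (γ s) - γ s * D.kk s (γ s)) (Icc s0 S) s := by
  have hv0 := hγ.v0pos
  have h1 := hγ.hv
  obtain ⟨h2, h3⟩ := hγ.bd s hs
  have h4 : 0 < s := by linarith [hs.1]
  have h5 : |γ s| ≤ s := by
    rw [abs_of_nonneg h2]
    linarith [hs.1]
  have h6 : D.gvv s (γ s) ≠ 0 := ne_of_gt (lt_of_lt_of_le hη (hc.vv s (γ s) h5 h4))
  have h7 : s + γ s ≠ 0 := by positivity
  have hg := hγ.de s hs
  have hid : HasDerivWithinAt (fun s : ℝ => s) 1 (Icc s0 S) s := hasDerivWithinAt_id s _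
  have ka : HasDerivWithinAt (fun s => D.a (γ s)) (D.a1 (γ s) * D.fm s (γ s)) (Icc s0 S) s :=
    (hD.a1 (γ s)).comp_hasDerivWithinAt s hg
  have kb : HasDerivWithinAt (fun s => D.b (γ s)) (D.b1 (γ s) * D.fm s (γ s)) (Icc s0 S) s :=
    (hD.b1 (γ s)).comp_hasDerivWithinAt s hg
  have ka1 : HasDerivWithinAt (fun s => D.a1 (γ s)) (D.a2 (γ s) * D.fm s (γ s)) (Icc s0 S) s :=
    (hD.a2 (γ s)).comp_hasDerivWithinAt s hg
  have kb1 : HasDerivWithinAt (fun s => D.b1 (γ s)) (D.b2 (γ s) * D.fm s (γ s)) (Icc s0 S) s :=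
    (hD.b2 (γ s)).comp_hasDerivWithinAt s hg
  have kh : HasDerivWithinAt D.h (D.h1 s) (Icc s0 S) s := (hD.h1 s).hasDerivWithinAt
  have kc : HasDerivWithinAt D.c (D.c1 s) (Icc s0 S) s := (hD.c1 s).hasDerivWithinAt
  have hfm : D.gvv s (γ s) * D.fm s (γ s) = min (D.X s (γ s)) 0 / (s + γ s) := by
    unfold Da.fm
    field_simp
  have e1 : HasDerivWithinAt (fun s => D.gv s (γ s)) (D.kk s (γ s)) (Icc s0 S) s := by
    have h8 := ((ka1.mul hid).add kb1).add kc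
    refine HasDerivWithinAt.congr_deriv h8 ?_
    unfold Da.kk
    rw [← hfm]
    unfold Da.gvv Da.gsv
    ring
  refine ⟨e1, ?_⟩
  have h9 := ((((ka.mul hid).add kb).add kh).add (kc.mul hg)).sub (hg.mul e1)
  refine HasDerivWithinAt.congr_deriv h9 ?_
  simp only [Da.gs, Da.gv]
  ring

end Pool.Agent.TH937.FF4
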