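import Pool.Agent.TH937.FF4.Defs
import Pool.Agent.TH937.ZC.Fin

/-!
# Generic points; the norm and the determinant in complex notation
-/

set_option autoImplicit false

namespace Pool.Agent.TH937.FF4

open MeasureTheory Set Filter Topology
open scoped ComplexConjugate
open Pool.Agent.W360.MQ (cab RankOneConvex Quasiconvex)

/-- generic points are dense -/
theorem dense (F0 : ℂ × ℂ) {δ : ℝ} (hδ : 0 < δ) :
    ∃ F1 : ℂ × ℂ, ‖F1 - F0‖ < δ ∧ F1.1 ≠ 0 ∧ F1.2 ≠ 0 ∧ ‖F1.1‖ ≠ ‖F1.2‖ := by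
  -- enlarge both norms
  have key : ∀ (z : ℂ) (t : ℝ), 0 < t → ∃ z' : ℂ, ‖z' - z‖ = t ∧ ‖z'‖ = ‖z‖ + t := by
    intro z t ht
    by_cases h : z = 0
    · refine ⟨(t : ℂ), ?_, ?_⟩ <;> simp [h, abs_of_pos ht]
    · have h0 : 0 < ‖z‖ := norm_pos_iff.2 h
      refine ⟨((1 + t / ‖z‖ : ℝ) : ℂ) * z, ?_, ?_⟩
      · have e1 : ((1 + t / ‖z‖ : ℝ) : ℂ) * z - z = ((t / ‖z‖ : ℝ) : ℂ) * z := by
          push_cast; ring
        rw [e1, norm_mul, Complex.norm_real, Real.norm_of_nonneg (by positivity)]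
        field_simp
      · rw [norm_mul, Complex.norm_real, Real.norm_of_nonneg (by positivity)]
        field_simp
  obtain ⟨z2, a2, b2⟩ := key F0.2 (δ / 2) (by linarith)
  have : ∃ t, 0 < t ∧ t < δ ∧ ‖F0.1‖ + t ≠ ‖z2‖ := by
    by_cases h : ‖F0.1‖ + δ / 2 = ‖z2‖
    · exact ⟨δ / 4, by linarith, by linarith, by linarith⟩
    · exact ⟨δ / 2, by linarith, by linarith, h⟩
  obtain ⟨t, t0, t1, t2⟩ := this
  obtain ⟨z1, a1, b1⟩ := key F0.1 t t0
  refine ⟨(z1, z2), ?_, ?_, ?_, ?_⟩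
  · rw [Prod.norm_def]
    simp only [Prod.fst_sub, Prod.snd_sub]
    rw [a1, a2]
    exact max_lt t1 (by linarith)
  · intro h
    simp only at h
    rw [h, norm_zero] at b1
    linarith [norm_nonneg F0.1]
  · intro h
    simp only at h
    rw [h, norm_zero] at b2
    linarith [norm_nonneg F0.2]
  · simp only
    rw [b1]
    exact t2

open scoped Matrix.Norms.L2Operator in
theorem nv_eq (A : Matrix (Fin 2) (Fin 2) ℝ) :
    ‖A‖ = ‖(cab A).1‖ + ‖(cab A).2‖ ∧ A.det / ‖A‖ = ‖(cab A).1‖ - ‖(cab A).2‖ := by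
  obtain ⟨h1, h2⟩ := Pool.Agent.W74.MQ.OPN.main A
  refine ⟨h1, ?_⟩
  rw [h1, h2]
  have n1 := norm_nonneg (cab A).1
  have n2 := norm_nonneg (cab A).2
  rcases eq_or_lt_of_le (add_nonneg n1 n2) with h | h
  · have e1 : ‖(cab A).1‖ = 0 := by linarith
    have e2 : ‖(cab A).2‖ = 0 := by linarith
    rw [e1, e2]; simp
  · rw [div_eq_iff h.ne']
    ring

end Pool.Agent.TH937.FF4
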