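import Pool.Agent.TH937.FF4.Defs

/-!
# Morrey's problem for `W = a(v) s + b(v) + h(s) + c(s) v`: affine continuation of the coefficients
of the supporting function (written by helper359)
-/

set_option autoImplicit false

namespace Pool.Agent.TH937.FF4

open Set Filter Topology
open Pool.Agent.TH937.ZC (QL RCc)
open scoped ComplexConjugate

/-- projection to `[s0, S]` -/
private noncomputable def gluePr (s0 S x : ℝ) : ℝ := max s0 (min x S)

private theorem gluePr_of_le {s0 S x : ℝ} (h : x ≤ s0) : gluePr s0 S x = s0 := by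
  unfold gluePr
  exact max_eq_left ((min_le_left _ _).trans h)

private theorem gluePr_of_ge {s0 S x : ℝ} (hS : s0 ≤ S) (h : S ≤ x) : gluePr s0 S x = S := by
  unfold gluePr
  rw [min_eq_right h, max_eq_right hS]

private theorem gluePr_of_mem {s0 S x : ℝ} (h : x ∈ Icc s0 S) : gluePr s0 S x = x := by
  unfold gluePr
  rw [min_eq_left h.2, max_eq_right h.1]

private theorem gluePr_mem {s0 S : ℝ} (hS : s0 ≤ S) (x : ℝ) : gluePr s0 S x ∈ Icc s0 S := by
  unfold gluePr
  exact ⟨le_max_left _ _, max_le hS (min_le_right _ _)⟩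

private theorem gluePr_mono {s0 S : ℝ} : Monotone (gluePr s0 S) := by
  intro x y hxy
  unfold gluePr
  exact max_le_max le_rfl (min_le_min hxy le_rfl)

/-- the affine continuation -/
private noncomputable def glueF (s0 S : ℝ) (A A1 : ℝ → ℝ) (x : ℝ) : ℝ :=
  A (gluePr s0 S x) + A1 (gluePr s0 S x) * (x - gluePr s0 S x)

private theorem glueF_mem {s0 S : ℝ} {A A1 : ℝ → ℝ} {x : ℝ} (h : x ∈ Icc s0 S) :
    glueF s0 S A A1 x = A x := by
  unfold glueF
  rw [gluePr_of_mem h, sub_self, mul_zero, add_zero]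

private theorem glueF_le {s0 S : ℝ} {A A1 : ℝ → ℝ} {x : ℝ} (h : x ≤ s0) :
    glueF s0 S A A1 x = A s0 + A1 s0 * (x - s0) := by
  unfold glueF
  rw [gluePr_of_le h]

private theorem glueF_ge {s0 S : ℝ} (hS : s0 ≤ S) {A A1 : ℝ → ℝ} {x : ℝ} (h : S ≤ x) :
    glueF s0 S A A1 x = A S + A1 S * (x - S) := by
  unfold glueF
  rw [gluePr_of_ge hS h]

private theorem glue_aff (a b c x : ℝ) : HasDerivAt (fun y : ℝ => a + b * (y - c)) b x := by
  have h := (((hasDerivAt_id x).sub_const c).const_mul b).const_add a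
  rw [mul_one] at h
  exact h

private theorem glueF_hasDerivAt {s0 S : ℝ} (hS : s0 < S) {A A1 : ℝ → ℝ}
    (dA : ∀ s ∈ Icc s0 S, HasDerivWithinAt A (A1 s) (Icc s0 S) s) (s : ℝ) :
    HasDerivAt (glueF s0 S A A1) (A1 (gluePr s0 S s)) s := by
  have hw : ∀ s ∈ Icc s0 S, HasDerivWithinAt (glueF s0 S A A1) (A1 s) (Icc s0 S) s := by
    intro s hs
    exact (dA s hs).congr (fun x hx => glueF_mem hx) (glueF_mem hs)
  rcases lt_trichotomy s s0 with h | h | h
  · rw [gluePr_of_le h.le]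
    refine (glue_aff (A s0) (A1 s0) s0 s).congr_of_eventuallyEq ?_
    filter_upwards [Iio_mem_nhds h] with x hx
    exact glueF_le (le_of_lt hx)
  · subst h
    rw [gluePr_of_le le_rfl]
    have h1 : HasDerivWithinAt (glueF s S A A1) (A1 s) (Iic s) s :=
      (glue_aff (A s) (A1 s) s s).hasDerivWithinAt.congr (fun x hx => glueF_le hx)
        (glueF_le le_rfl)
    have h2 : HasDerivWithinAt (glueF s S A A1) (A1 s) (Ici s) s :=
      (hw s (left_mem_Icc.2 hS.le)).mono_of_mem_nhdsWithin (Icc_mem_nhdsGE hS)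
    have h3 := h1.union h2
    rw [Iic_union_Ici, hasDerivWithinAt_univ] at h3
    exact h3
  · rcases lt_trichotomy s S with h' | h' | h'
    · rw [gluePr_of_mem ⟨h.le, h'.le⟩]
      exact (hw s ⟨h.le, h'.le⟩).hasDerivAt (Icc_mem_nhds h h')
    · subst h'
      rw [gluePr_of_ge hS.le le_rfl]
      have h1 : HasDerivWithinAt (glueF s0 s A A1) (A1 s) (Ici s) s :=
        (glue_aff (A s) (A1 s) s s).hasDerivWithinAt.congr (fun x hx => glueF_ge hS.le hx)
          (glueF_ge hS.le le_rfl)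
      have h2 : HasDerivWithinAt (glueF s0 s A A1) (A1 s) (Iic s) s :=
        (hw s (right_mem_Icc.2 hS.le)).mono_of_mem_nhdsWithin (Icc_mem_nhdsLE hS)
      have h3 := h2.union h1
      rw [Iic_union_Ici, hasDerivWithinAt_univ] at h3
      exact h3
    · rw [gluePr_of_ge hS.le h'.le]
      refine (glue_aff (A S) (A1 S) S s).congr_of_eventuallyEq ?_
      filter_upwards [Ioi_mem_nhds h'] with x hx
      exact glueF_ge hS.le (le_of_lt hx)

theorem glue {s0 S : ℝ} (h0 : 0 < s0) (hS : s0 < S) {A C A1 C1 : ℝ → ℝ}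
    (dA : ∀ s ∈ Icc s0 S, HasDerivWithinAt A (A1 s) (Icc s0 S) s)
    (dC : ∀ s ∈ Icc s0 S, HasDerivWithinAt C (C1 s) (Icc s0 S) s)
    (hm : ∀ v, MonotoneOn (fun s => A1 s + C1 s * v) (Icc s0 S ∩ Ici |v|))
    (hx : ∀ s ∈ Icc s0 S, 0 ≤ A1 s + C s - s * C1 s)
    (hy : ∀ s ∈ Icc s0 S, 0 ≤ A1 s - C s + s * C1 s) :
    ∃ A' C' : ℝ → ℝ, (∀ s ∈ Icc s0 S, A' s = A s ∧ C' s = C s) ∧
      (∀ s, s ≤ s0 → A' s = A s0 + A1 s0 * (s - s0) ∧ C' s = C s0 + C1 s0 * (s - s0)) ∧
      (∀ τ : ℝ, ConvexOn ℝ (Ici |τ|) (fun t => A' t + C' t * τ)) ∧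
      (∀ u t, 0 ≤ u → u ≤ t →
        A' u + C' u * t ≤ A' t + C' t * u ∧ A' u - C' u * t ≤ A' t - C' t * u) := by
  have hd : ∀ τ t : ℝ, HasDerivAt (fun t => glueF s0 S A A1 t + glueF s0 S C C1 t * τ)
      (A1 (gluePr s0 S t) + C1 (gluePr s0 S t) * τ) t := fun τ t =>
    (glueF_hasDerivAt hS dA t).add ((glueF_hasDerivAt hS dC t).mul_const τ)
  have hmono : ∀ τ t t' : ℝ, |τ| ≤ t → t ≤ t' →
      A1 (gluePr s0 S t) + C1 (gluePr s0 S t) * τ ≤
        A1 (gluePr s0 S t') + C1 (gluePr s0 S t') * τ := by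
    intro τ t t' h1 h2
    rcases le_or_gt |τ| (gluePr s0 S t) with h3 | h3
    · exact hm τ ⟨gluePr_mem hS.le t, h3⟩ ⟨gluePr_mem hS.le t', h3.trans (gluePr_mono h2)⟩
        (gluePr_mono h2)
    · have h4 : S ≤ t := by
        by_contra hcon
        rw [not_le] at hcon
        rcases le_or_gt s0 t with h5 | h5
        · rw [gluePr_of_mem ⟨h5, hcon.le⟩] at h3
          linarith
        · rw [gluePr_of_le h5.le] at h3
          linarith
      rw [gluePr_of_ge hS.le h4, gluePr_of_ge hS.le (h4.trans h2)]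
  have hconv : ∀ τ : ℝ, ConvexOn ℝ (Ici |τ|)
      (fun t => glueF s0 S A A1 t + glueF s0 S C C1 t * τ) := by
    intro τ
    refine MonotoneOn.convexOn_of_deriv (convex_Ici _)
      (fun t _ => (hd τ t).continuousAt.continuousWithinAt)
      (fun t _ => (hd τ t).differentiableAt.differentiableWithinAt) ?_
    intro t ht t' _ htt'
    rw [(hd τ t).deriv, (hd τ t').deriv]
    rw [interior_Ici, mem_Ioi] at ht
    exact hmono τ t t' ht.le htt'
  have htan : ∀ τ u t : ℝ, |τ| ≤ u → u ≤ t →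
      glueF s0 S A A1 u + glueF s0 S C C1 u * τ +
        (A1 (gluePr s0 S u) + C1 (gluePr s0 S u) * τ) * (t - u) ≤
      glueF s0 S A A1 t + glueF s0 S C C1 t * τ := by
    intro τ u t h1 h2
    rcases h2.eq_or_lt with h3 | h3
    · rw [← h3]; simp
    · have h4 := (hconv τ).le_slope_of_hasDerivAt (mem_Ici.2 h1) (mem_Ici.2 (h1.trans h2)) h3
        (hd τ u)
      rw [slope_def_field, le_div_iff₀ (sub_pos.2 h3)] at h4
      linarith
  refine ⟨glueF s0 S A A1, glueF s0 S C C1, fun s hs => ⟨glueF_mem hs, glueF_mem hs⟩,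
    fun s hs => ⟨glueF_le hs, glueF_le hs⟩, hconv, ?_⟩
  intro u t hu hut
  have hp := gluePr_mem hS.le u
  have e : glueF s0 S C C1 u =
      C (gluePr s0 S u) + C1 (gluePr s0 S u) * (u - gluePr s0 S u) := rfl
  have hut' : 0 ≤ t - u := sub_nonneg.2 hut
  constructor
  · have h1 := htan u u t (abs_of_nonneg hu).le hut
    have h2 := mul_nonneg (hy _ hp) hut'
    have h3 : glueF s0 S C C1 u * (t - u) ≤
        (A1 (gluePr s0 S u) + C1 (gluePr s0 S u) * u) * (t - u) := by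
      rw [e]
      nlinarith
    linarith
  · have h1 := htan (-u) u t (by rw [abs_neg]; exact (abs_of_nonneg hu).le) hut
    have h2 := mul_nonneg (hx _ hp) hut'
    have h3 : -glueF s0 S C C1 u * (t - u) ≤
        (A1 (gluePr s0 S u) + C1 (gluePr s0 S u) * (-u)) * (t - u) := by
      rw [e]
      nlinarith
    linarith

end Pool.Agent.TH937.FF4
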