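import Pool.Agent.TH937.FF4.Defs
set_option autoImplicit false
namespace Pool.Agent.TH937.FF4
open Set Filter Topology
open Pool.Agent.TH937.ZC (QL RCc)
open scoped ComplexConjugate

private theorem mirror_neg {f : ℝ → ℝ} {f' : ℝ → ℝ} (h : ∀ x, HasDerivAt f (f' x) x) (x : ℝ) :
    HasDerivAt (fun v => f (-v)) (-f' (-x)) x := by
  have h2 : HasDerivAt (fun v : ℝ => -v) (-1) x := (hasDerivAt_id x).neg
  have h3 := HasDerivAt.comp (h₂ := f) x (h (-x)) h2
  refine h3.congr_deriv ?_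
  ring

private theorem mirror_neg' {f : ℝ → ℝ} {f' : ℝ → ℝ} (h : ∀ x, HasDerivAt f (f' x) x) (x : ℝ) :
    HasDerivAt (fun v => -f (-v)) (f' (-x)) x := by
  refine (mirror_neg h x).neg.congr_deriv ?_
  ring

theorem mirror_reg {D : Da} (hD : Reg D) : Reg D.mirror where
  a1 := fun x => mirror_neg hD.a1 x
  b1 := fun x => mirror_neg hD.b1 x
  h1 := fun x => hD.h1 x
  c1 := fun x => (hD.c1 x).neg
  a2 := fun x => mirror_neg' hD.a2 x
  b2 := fun x => mirror_neg' hD.b2 x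
  h2 := fun x => hD.h2 x
  c2 := fun x => (hD.c2 x).neg
  la := by
    intro R
    obtain ⟨L, hL⟩ := hD.la R
    refine ⟨L, fun x y hx hy => ?_⟩
    have h := hL (-x) (-y) (by rwa [abs_neg]) (by rwa [abs_neg])
    rwa [show -x - -y = -(x - y) by ring, abs_neg] at h
  lb := by
    intro R
    obtain ⟨L, hL⟩ := hD.lb R
    refine ⟨L, fun x y hx hy => ?_⟩
    have h := hL (-x) (-y) (by rwa [abs_neg]) (by rwa [abs_neg])
    rwa [show -x - -y = -(x - y) by ring, abs_neg] at h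

private theorem mirror_w (D : Da) (F : ℂ × ℂ) : D.mirror.w F = D.w (F.2, F.1) := by
  simp only [Da.w, Da.g, Da.mirror, neg_sub]
  rw [add_comm ‖F.1‖ ‖F.2‖]
  ring

theorem mirror_rc {D : Da} (hR : RCc D.w) : RCc D.mirror.w := by
  intro F H hH t h0 h1
  simp only [mirror_w]
  have h := hR (F.2, F.1) (H.2, H.1) hH.symm t h0 h1
  exact h

theorem mirror_ql {D : Da} {F0 : ℂ × ℂ} (h : QL D.mirror.w (conj F0.2, conj F0.1)) :
    QL D.w F0 := by
  have h3 := Pool.Agent.TH937.ZC.QL_swap (k := fun x y => D.g (x + y) (-(x - y))) (F0 := F0) (by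
    have e1 : (fun F : ℂ × ℂ => D.g (‖F.1‖ + ‖F.2‖) (-(‖F.1‖ - ‖F.2‖))) = D.mirror.w := by
      funext F
      rw [mirror_w]
      simp only [Da.w, neg_sub]
      rw [add_comm ‖F.1‖ ‖F.2‖]
    rw [e1]
    exact h)
  have e2 : D.w = fun F : ℂ × ℂ => D.g (‖F.2‖ + ‖F.1‖) (-(‖F.2‖ - ‖F.1‖)) := by
    funext F
    simp only [Da.w, neg_sub]
    rw [add_comm ‖F.1‖ ‖F.2‖]
  rw [e2]
  exact h3

end Pool.Agent.TH937.FF4
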