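import Pool.Agent.TH937.FF4.Defs

set_option autoImplicit false

namespace Pool.Agent.TH937.FF4

open Set Filter Topology

private theorem mono_alg {s v u g' N N' Gss Gsv Gvv : ℝ} (hs : s + u ≠ 0)
    (hN : N = (s + u) * (Gsv + Gvv * g')) (hN' : N' = Gss + Gsv + (Gsv + Gvv) * g') :
    1 * (N / (s + u)) + (s + v) * ((N' * (s + u) - N * (1 + g')) / (s + u) ^ 2)
      - (Gsv + Gvv * g') = (s + v) * (Gss - g' ^ 2 * Gvv) / (s + u) := by
  subst hN hN'
  field_simp
  ring

theorem mono {D : Da} {η : ℝ} (hD : Reg D) (hc : Cn D η) (hη : 0 < η) {s0 v0 S sb : ℝ}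
    {γ : ℝ → ℝ} (hγ : Cv D s0 v0 S γ) (hb : sb ∈ Icc s0 S)
    (p1 : ∀ s ∈ Ico s0 sb, D.X s (γ s) ≤ 0)
    (p2 : ∀ s ∈ Ioc sb S, γ s = γ sb ∧ 0 ≤ D.X s (γ s)) (v : ℝ) :
    MonotoneOn (fun s => (D.gs s (γ s) - γ s * D.kk s (γ s)) + D.kk s (γ s) * v)
      (Icc s0 S ∩ Ici |v|) := by
  have h0 : 0 < v0 := hγ.v0pos
  have hv0 := hγ.hv
  have hs0 : 0 < s0 := h0.trans hv0
  have ca : Continuous D.a := continuous_iff_continuousAt.2 fun x => (hD.a1 x).continuousAt
  have ca1 : Continuous D.a1 := continuous_iff_continuousAt.2 fun x => (hD.a2 x).continuousAt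
  have cb1 : Continuous D.b1 := continuous_iff_continuousAt.2 fun x => (hD.b2 x).continuousAt
  have ch1 : Continuous D.h1 := continuous_iff_continuousAt.2 fun x => (hD.h2 x).continuousAt
  have cc : Continuous D.c := continuous_iff_continuousAt.2 fun x => (hD.c1 x).continuousAt
  have cc1 : Continuous D.c1 := continuous_iff_continuousAt.2 fun x => (hD.c2 x).continuousAt
  have hpos : ∀ s ∈ Icc s0 S, 0 < s + γ s := fun s hs => by
    have := (hγ.bd s hs).1
    linarith [hs.1]
  have hcont : ContinuousOn γ (Icc s0 S) := fun s hs => (hγ.de s hs).continuousWithinAt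
  set T : ℝ → ℝ := fun s => (D.gs s (γ s) - γ s * D.kk s (γ s)) + D.kk s (γ s) * v with hT
  have c_a : ContinuousOn (fun s => D.a (γ s)) (Icc s0 S) := ca.comp_continuousOn hcont
  have c_a1 : ContinuousOn (fun s => D.a1 (γ s)) (Icc s0 S) := ca1.comp_continuousOn hcont
  have c_b1 : ContinuousOn (fun s => D.b1 (γ s)) (Icc s0 S) := cb1.comp_continuousOn hcont
  have c_id : ContinuousOn (fun s : ℝ => s) (Icc s0 S) := continuousOn_id
  have c_h1 : ContinuousOn D.h1 (Icc s0 S) := ch1.continuousOn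
  have c_c : ContinuousOn D.c (Icc s0 S) := cc.continuousOn
  have c_c1 : ContinuousOn D.c1 (Icc s0 S) := cc1.continuousOn
  have c_gs : ContinuousOn (fun s => D.gs s (γ s)) (Icc s0 S) := by
    unfold Da.gs; exact (c_a.add c_h1).add (c_c1.mul hcont)
  have c_gv : ContinuousOn (fun s => D.gv s (γ s)) (Icc s0 S) := by
    unfold Da.gv; exact ((c_a1.mul c_id).add c_b1).add c_c
  have c_gsv : ContinuousOn (fun s => D.gsv s (γ s)) (Icc s0 S) := by
    unfold Da.gsv; exact c_a1.add c_c1
  have c_X : ContinuousOn (fun s => D.X s (γ s)) (Icc s0 S) := by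
    unfold Da.X; exact (c_gs.add c_gv).sub ((c_id.add hcont).mul c_gsv)
  have c_kk : ContinuousOn (fun s => D.kk s (γ s)) (Icc s0 S) := by
    unfold Da.kk
    have cm : ContinuousOn (fun s => min (D.X s (γ s)) 0) (Icc s0 S) :=
      (continuous_id.min continuous_const).comp_continuousOn c_X
    refine c_gsv.add (cm.div (c_id.add hcont) ?_)
    exact fun s hs => (hpos s hs).ne'
  have hTc : ContinuousOn T (Icc s0 S) := (c_gs.sub (hcont.mul c_kk)).add (c_kk.mul continuousOn_const)
  have hda : ∀ s ∈ Ioo s0 S, HasDerivAt γ (D.fm s (γ s)) s := fun s hs =>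
    (hγ.de s (Ioo_subset_Icc_self hs)).hasDerivAt (Icc_mem_nhds hs.1 hs.2)
  -- first part
  have part1 : MonotoneOn T (Icc (max s0 |v|) sb) := by
    have hsub : Icc (max s0 |v|) sb ⊆ Icc s0 S := Icc_subset_Icc (le_max_left _ _) hb.2
    have hder : ∀ s ∈ Ioo (max s0 |v|) sb, HasDerivAt T
        ((s + v) * (D.gss s (γ s) - (D.fm s (γ s)) ^ 2 * D.gvv s (γ s)) / (s + γ s)) s := by
      intro s hs
      have hsm : s0 < s := (le_max_left _ _).trans_lt hs.1
      have hs1 : s ∈ Ioo s0 S := ⟨hsm, hs.2.trans_le hb.2⟩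
      have hs2 : s ∈ Icc s0 S := Ioo_subset_Icc_self hs1
      have hg := hda s hs1
      set g' := D.fm s (γ s) with hg'
      have hp := hpos s hs2
      have hX : D.X s (γ s) ≤ 0 := p1 s ⟨hsm.le, hs.2⟩
      have hG : η ≤ D.gvv s (γ s) := by
        refine hc.vv s (γ s) ?_ (hs0.trans hsm)
        rw [abs_of_nonneg (hγ.bd s hs2).1]
        linarith [(hγ.bd s hs2).2]
      have hGp : 0 < D.gvv s (γ s) := hη.trans_le hG
      have hk : D.gvv s (γ s) * g' * (s + γ s) = D.X s (γ s) := by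
        rw [hg', Da.fm, min_eq_left hX]
        field_simp
      -- derivatives
      have d1 : HasDerivAt (fun x => D.gs x (γ x))
          (D.a1 (γ s) * g' + D.h2 s + (D.c2 s * γ s + D.c1 s * g')) s := by
        have := (((hD.a1 (γ s)).comp s hg).add (hD.h2 s)).add ((hD.c2 s).mul hg)
        exact this
      have d2 : HasDerivAt (fun x => D.gv x (γ x))
          ((D.a2 (γ s) * g') * s + D.a1 (γ s) * 1 + D.b2 (γ s) * g' + D.c1 s) s := by
        have := ((((hD.a2 (γ s)).comp s hg).mul (hasDerivAt_id s)).add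
          ((hD.b2 (γ s)).comp s hg)).add (hD.c1 s)
        exact this
      have d3 : HasDerivAt (fun x => x + γ x) (1 + g') s := (hasDerivAt_id s).add hg
      have d4 := (d1.add d2).div d3 hp.ne'
      have d5 : HasDerivAt (fun x => (x + v) * ((D.gs x (γ x) + D.gv x (γ x)) / (x + γ x)) -
          D.gv x (γ x)) _ s := (((hasDerivAt_id s).add_const v).mul d4).sub d2
      have heq : T =ᶠ[𝓝 s] fun x => (x + v) * ((D.gs x (γ x) + D.gv x (γ x)) / (x + γ x)) -
          D.gv x (γ x) := by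
        filter_upwards [Ioo_mem_nhds hsm hs.2] with x hx
        have hx2 : x ∈ Icc s0 S := ⟨hx.1.le, hx.2.le.trans hb.2⟩
        have hxp := hpos x hx2
        have hxX : D.X x (γ x) ≤ 0 := p1 x ⟨hx.1.le, hx.2⟩
        simp only [hT, Da.kk, min_eq_left hxX]
        unfold Da.X
        field_simp
        ring
      refine (d5.congr_of_eventuallyEq heq).congr_deriv ?_
      have e1 : D.a1 (γ s) * g' + D.h2 s + (D.c2 s * γ s + D.c1 s * g') +
          ((D.a2 (γ s) * g') * s + D.a1 (γ s) * 1 + D.b2 (γ s) * g' + D.c1 s) =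
          D.gss s (γ s) + D.gsv s (γ s) + (D.gsv s (γ s) + D.gvv s (γ s)) * g' := by
        unfold Da.gss Da.gsv Da.gvv; ring
      have e2 : (D.a2 (γ s) * g') * s + D.a1 (γ s) * 1 + D.b2 (γ s) * g' + D.c1 s =
          D.gsv s (γ s) + D.gvv s (γ s) * g' := by
        unfold Da.gsv Da.gvv; ring
      have e3 : D.gs s (γ s) + D.gv s (γ s) =
          (s + γ s) * (D.gsv s (γ s) + D.gvv s (γ s) * g') := by
        have : D.X s (γ s) = D.gs s (γ s) + D.gv s (γ s) - (s + γ s) * D.gsv s (γ s) := rfl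
        linarith [hk]
      have := mono_alg (v := v) hp.ne' e3 e1
      rw [e2] at *
      simp only [id, Pi.add_apply, Pi.div_apply] at *
      linarith [this]
    refine monotoneOn_of_deriv_nonneg (convex_Icc _ _) (hTc.mono hsub) ?_ ?_
    · rw [interior_Icc]
      exact fun s hs => (hder s hs).differentiableAt.differentiableWithinAt
    · rw [interior_Icc]
      intro s hs
      rw [(hder s hs).deriv]
      have hsm : s0 < s := (le_max_left _ _).trans_lt hs.1
      have hsv : |v| < s := (le_max_right _ _).trans_lt hs.1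
      have hs1 : s ∈ Ioo s0 S := ⟨hsm, hs.2.trans_le hb.2⟩
      have hs2 : s ∈ Icc s0 S := Ioo_subset_Icc_self hs1
      have hp := hpos s hs2
      have hX : D.X s (γ s) ≤ 0 := p1 s ⟨hsm.le, hs.2⟩
      have hbd := hγ.bd s hs2
      have hG : η ≤ D.gvv s (γ s) := by
        refine hc.vv s (γ s) ?_ (hs0.trans hsm)
        rw [abs_of_nonneg hbd.1]
        linarith [hbd.2]
      have hGp : 0 < D.gvv s (γ s) := hη.trans_le hG
      have hf : D.fm s (γ s) = D.X s (γ s) / ((s + γ s) * D.gvv s (γ s)) := by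
        rw [Da.fm, min_eq_left hX]
      have hfn : D.fm s (γ s) ≤ 0 := by
        rw [hf]; exact div_nonpos_of_nonpos_of_nonneg hX (mul_pos hp hGp).le
      have hrx := hc.rx s (γ s) (-D.fm s (γ s)) (by
        rw [abs_of_nonneg hbd.1]; linarith [hbd.2]) (by linarith)
      have hXe : D.X s (γ s) / (s + γ s) = D.fm s (γ s) * D.gvv s (γ s) := by
        rw [hf]; field_simp
      have h3 : 0 ≤ D.gss s (γ s) - (D.fm s (γ s)) ^ 2 * D.gvv s (γ s) := by
        have e : D.gss s (γ s) + (-D.fm s (γ s)) ^ 2 * D.gvv s (γ s) +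
            2 * (-D.fm s (γ s)) * D.X s (γ s) / (s + γ s) =
            D.gss s (γ s) - (D.fm s (γ s)) ^ 2 * D.gvv s (γ s) := by
          rw [mul_div_assoc, hXe]; ring
        rwa [e] at hrx
      have h4 : 0 ≤ s + v := by
        have := neg_abs_le v
        linarith
      exact div_nonneg (mul_nonneg h4 h3) hp.le
  have part2 : MonotoneOn T (Icc (max sb |v|) S) := by
    have hsub : Icc (max sb |v|) S ⊆ Icc s0 S := Icc_subset_Icc (hb.1.trans (le_max_left _ _)) le_rfl
    have hder : ∀ s ∈ Ioo (max sb |v|) S, HasDerivAt T (D.gss s v) s := by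
      intro s hs
      have hsm : sb < s := (le_max_left _ _).trans_lt hs.1
      have heq : T =ᶠ[𝓝 s] fun x => (D.a (γ sb) + D.a1 (γ sb) * (v - γ sb)) + (D.h1 x + D.c1 x * v) := by
        filter_upwards [Ioo_mem_nhds hsm hs.2] with x hx
        obtain ⟨h1, h2⟩ := p2 x ⟨hx.1, hx.2.le⟩
        simp only [hT, Da.kk, min_eq_right h2, zero_div, add_zero]
        rw [h1]
        unfold Da.gs Da.gsv
        ring
      have hd : HasDerivAt (fun x => (D.a (γ sb) + D.a1 (γ sb) * (v - γ sb)) + (D.h1 x + D.c1 x * v))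
          (D.h2 s + D.c2 s * v) s := ((hD.h2 s).add ((hD.c2 s).mul_const v)).const_add _
      exact hd.congr_of_eventuallyEq heq
    refine monotoneOn_of_deriv_nonneg (convex_Icc _ _) (hTc.mono hsub) ?_ ?_
    · rw [interior_Icc]
      exact fun s hs => (hder s hs).differentiableAt.differentiableWithinAt
    · rw [interior_Icc]
      intro s hs
      rw [(hder s hs).deriv]
      refine hc.ss s v ((le_max_right _ _).trans hs.1.le) ?_
      have : sb < s := (le_max_left _ _).trans_lt hs.1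
      linarith [hb.1]
  intro x hx y hy hxy
  have hx1 := hx.1
  have hx2 : |v| ≤ x := hx.2
  have hy1 := hy.1
  rcases le_total y sb with h | h
  · exact part1 ⟨max_le hx1.1 hx2, hxy.trans h⟩ ⟨max_le hy1.1 (hx2.trans hxy), h⟩ hxy
  · rcases le_total sb x with h' | h'
    · exact part2 ⟨max_le h' hx2, hx1.2⟩ ⟨max_le h (hx2.trans hxy), hy1.2⟩ hxy
    · exact (part1 ⟨max_le hx1.1 hx2, h'⟩ ⟨max_le hb.1 (hx2.trans h'), le_rfl⟩ h').trans
        (part2 ⟨max_le le_rfl (hx2.trans h'), hb.2⟩ ⟨max_le h (hx2.trans hxy), hy1.2⟩ h)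

end Pool.Agent.TH937.FF4
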