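import Mathlib
import Pool.Agent.TH937.FF4.Defs
set_option autoImplicit false
namespace Pool.Agent.TH937.FF4
open Set Filter Topology
open Pool.Agent.TH937.ZC (QL RCc)
open scoped ComplexConjugate

/-- a locally Lipschitz function is continuous -/
theorem Ode_cont {f : ℝ → ℝ} (hf : ∀ R : ℝ, ∃ L : ℝ, ∀ x y, |x| ≤ R → |y| ≤ R →
    |f x - f y| ≤ L * |x - y|) : Continuous f := by
  rw [continuous_iff_continuousAt]
  intro x
  obtain ⟨L, hL⟩ := hf (|x| + 1)
  rw [ContinuousAt, tendsto_iff_norm_sub_tendsto_zero]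
  have h1 : Tendsto (fun y => L * |y - x|) (𝓝 x) (𝓝 0) := by
    have : Continuous fun y : ℝ => L * |y - x| := by fun_prop
    have h := this.tendsto x
    simpa using h
  refine squeeze_zero' (Eventually.of_forall fun y => norm_nonneg _) ?_ h1
  filter_upwards [Metric.ball_mem_nhds x one_pos] with y hy
  rw [Metric.mem_ball, Real.dist_eq] at hy
  refine hL y x ?_ (by linarith)
  have : |y| ≤ |x| + |y - x| := by
    have := abs_add_le x (y - x)
    rwa [add_sub_cancel] at this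
  linarith

theorem Ode_lip_nonneg {f : ℝ → ℝ} (hf : ∀ R : ℝ, ∃ L : ℝ, ∀ x y, |x| ≤ R → |y| ≤ R →
    |f x - f y| ≤ L * |x - y|) (R : ℝ) : ∃ L : ℝ, 0 ≤ L ∧ ∀ x y, |x| ≤ R → |y| ≤ R →
    |f x - f y| ≤ L * |x - y| := by
  obtain ⟨L, hL⟩ := hf R
  exact ⟨|L|, abs_nonneg _, fun x y hx hy => (hL x y hx hy).trans
    (mul_le_mul_of_nonneg_right (le_abs_self L) (abs_nonneg _))⟩

/-- a function with continuous derivative is Lipschitz on intervals -/
theorem Ode_lip {f f' : ℝ → ℝ} (hf : ∀ x, HasDerivAt f (f' x) x) (hc : Continuous f') (b : ℝ) :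
    ∃ L : ℝ, 0 ≤ L ∧ ∀ x ∈ Icc 0 b, ∀ y ∈ Icc 0 b, |f x - f y| ≤ L * |x - y| := by
  obtain ⟨C, hC⟩ := isCompact_Icc.exists_bound_of_continuousOn (s := Icc (0 : ℝ) b) (f := f')
    hc.continuousOn
  refine ⟨|C|, abs_nonneg _, fun x hx y hy => ?_⟩
  have h := (convex_Icc (0 : ℝ) b).norm_image_sub_le_of_norm_hasDerivWithin_le (f := f) (f' := f')
    (C := |C|) (fun z _ => (hf z).hasDerivWithinAt)
    (fun z hz => (hC z hz).trans (le_abs_self C)) hy hx
  simpa [Real.norm_eq_abs] using h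

theorem Ode_quot {N1 N2 M1 M2 m B : ℝ} (hm : 0 < m) (h1 : m ≤ M1) (h2 : m ≤ M2) (hB : |N2| ≤ B) :
    |N1 / M1 - N2 / M2| ≤ |N1 - N2| / m + B * |M1 - M2| / m ^ 2 := by
  have hM1 : 0 < M1 := hm.trans_le h1
  have hM2 : 0 < M2 := hm.trans_le h2
  have e : N1 / M1 - N2 / M2 = (N1 - N2) / M1 + N2 * (M2 - M1) / (M1 * M2) := by
    field_simp
    ring
  have hB0 : 0 ≤ B := (abs_nonneg _).trans hB
  rw [e]
  refine (abs_add_le _ _).trans (add_le_add ?_ ?_)
  · rw [abs_div, abs_of_pos hM1]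
    exact div_le_div_of_nonneg_left (abs_nonneg _) hm h1
  · rw [abs_div, abs_mul, abs_of_pos (mul_pos hM1 hM2), abs_sub_comm M2 M1]
    have h3 : m ^ 2 ≤ M1 * M2 := by rw [sq]; exact mul_le_mul h1 h2 hm.le hM1.le
    calc |N2| * |M1 - M2| / (M1 * M2) ≤ B * |M1 - M2| / (M1 * M2) := by
          gcongr
      _ ≤ B * |M1 - M2| / m ^ 2 := by
          apply div_le_div_of_nonneg_left _ (by positivity) h3
          positivity

theorem Ode_clamp (v0 x y : ℝ) : |max 0 (min x v0) - max 0 (min y v0)| ≤ |x - y| := by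
  refine (abs_max_sub_max_le_max _ _ _ _).trans ?_
  rw [sub_self, abs_zero]
  refine max_le (abs_nonneg _) ?_
  refine (abs_min_sub_min_le_max _ _ _ _).trans ?_
  rw [sub_self, abs_zero]
  exact max_le le_rfl (abs_nonneg _)

theorem curve {D : Da} {η : ℝ} (hD : Reg D) (hc : Cn D η) (hη : 0 < η) {s0 v0 S : ℝ}
    (h0 : 0 < v0) (hv : v0 < s0) (hS : s0 < S) : ∃ γ : ℝ → ℝ, Cv D s0 v0 S γ := by
  have ca : Continuous D.a := continuous_iff_continuousAt.2 fun x => (hD.a1 x).continuousAt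
  have cb : Continuous D.b := continuous_iff_continuousAt.2 fun x => (hD.b1 x).continuousAt
  have cc : Continuous D.c := continuous_iff_continuousAt.2 fun x => (hD.c1 x).continuousAt
  have ca1 : Continuous D.a1 := continuous_iff_continuousAt.2 fun x => (hD.a2 x).continuousAt
  have cb1 : Continuous D.b1 := continuous_iff_continuousAt.2 fun x => (hD.b2 x).continuousAt
  have ch1 : Continuous D.h1 := continuous_iff_continuousAt.2 fun x => (hD.h2 x).continuousAt
  have cc1 : Continuous D.c1 := continuous_iff_continuousAt.2 fun x => (hD.c2 x).continuousAt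
  have ca2 : Continuous D.a2 := Ode_cont hD.la
  have cb2 : Continuous D.b2 := Ode_cont hD.lb
  have hs0 : 0 < s0 := h0.trans hv
  have cX : Continuous fun p : ℝ × ℝ => D.X p.1 p.2 := by
    simp only [Da.X, Da.gs, Da.gv, Da.gsv]
    fun_prop
  have cG : Continuous fun p : ℝ × ℝ => D.gvv p.1 p.2 := by
    simp only [Da.gvv]
    fun_prop
  obtain ⟨BX, hBX⟩ := (isCompact_Icc.prod isCompact_Icc).exists_bound_of_continuousOn
    (s := Icc s0 S ×ˢ Icc 0 v0) cX.continuousOn
  obtain ⟨BG, hBG⟩ := (isCompact_Icc.prod isCompact_Icc).exists_bound_of_continuousOn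
    (s := Icc s0 S ×ˢ Icc 0 v0) cG.continuousOn
  have hBX' : ∀ s ∈ Icc s0 S, ∀ v ∈ Icc 0 v0, |D.X s v| ≤ BX := fun s hs v hv' => by
    have := hBX (s, v) ⟨hs, hv'⟩
    rwa [Real.norm_eq_abs] at this
  have hBG' : ∀ s ∈ Icc s0 S, ∀ v ∈ Icc 0 v0, |D.gvv s v| ≤ BG := fun s hs v hv' => by
    have := hBG (s, v) ⟨hs, hv'⟩
    rwa [Real.norm_eq_abs] at this
  have hmem0 : (0 : ℝ) ∈ Icc 0 v0 := ⟨le_rfl, h0.le⟩
  have hmemS : s0 ∈ Icc s0 S := ⟨le_rfl, hS.le⟩
  have hBX0 : 0 ≤ BX := (abs_nonneg _).trans (hBX' _ hmemS _ hmem0)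
  have hBG0 : 0 ≤ BG := (abs_nonneg _).trans (hBG' _ hmemS _ hmem0)
  -- the part of X depending on v
  have hP : ∀ x, HasDerivAt (fun v => D.a v + D.b1 v - v * D.a1 v) (D.b2 x - x * D.a2 x) x := by
    intro x
    have h1 := ((hD.a1 x).add (hD.b2 x)).sub ((hasDerivAt_id x).mul (hD.a2 x))
    refine HasDerivAt.congr_deriv h1 ?_
    simp only [id]
    ring
  obtain ⟨LP, hLP0, hLP⟩ := Ode_lip hP (by fun_prop) v0
  obtain ⟨La, hLa0, hLa⟩ := Ode_lip_nonneg hD.la v0
  obtain ⟨Lb, hLb0, hLb⟩ := Ode_lip_nonneg hD.lb v0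
  have habs : ∀ v ∈ Icc 0 v0, |v| ≤ v0 := fun v h => by rw [abs_of_nonneg h.1]; exact h.2
  set m : ℝ := s0 * η with hm
  have hm0 : 0 < m := mul_pos hs0 hη
  have hM : ∀ s ∈ Icc s0 S, ∀ v ∈ Icc 0 v0, m ≤ (s + v) * D.gvv s v := by
    intro s hs v hv'
    have h1 : |v| ≤ s := (habs v hv').trans (hv.le.trans hs.1)
    have h2 := hc.vv s v h1 (hs0.trans_le hs.1)
    exact mul_le_mul (by linarith [hs.1, hv'.1]) h2 hη.le (by linarith [hs.1, hv'.1])
  have hN : ∀ s ∈ Icc s0 S, ∀ v ∈ Icc 0 v0, |min (D.X s v) 0| ≤ BX := by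
    intro s hs v hv'
    have := hBX' s hs v hv'
    rw [abs_le] at this ⊢
    exact ⟨le_min this.1 (by linarith), (min_le_right _ _).trans hBX0⟩
  set LM : ℝ := BG + (S + v0) * (La * S + Lb) with hLM
  have hS0 : 0 < S := hs0.trans hS
  have hLM0 : 0 ≤ LM := by positivity
  set LF : ℝ := LP / m + BX * LM / m ^ 2 with hLF
  have hLF0 : 0 ≤ LF := by positivity
  have hfl : ∀ s ∈ Icc s0 S, ∀ v ∈ Icc 0 v0, ∀ w ∈ Icc 0 v0,
      |D.fm s v - D.fm s w| ≤ LF * |v - w| := by
    intro s hs v hv' w hw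
    refine (Ode_quot hm0 (hM s hs v hv') (hM s hs w hw) (hN s hs w hw)).trans ?_
    have h1 : |min (D.X s v) 0 - min (D.X s w) 0| ≤ LP * |v - w| := by
      refine (abs_min_sub_min_le_max _ _ _ _).trans ?_
      rw [sub_self, abs_zero]
      refine max_le ?_ (by positivity)
      have h2 : D.X s v - D.X s w = (D.a v + D.b1 v - v * D.a1 v) -
          (D.a w + D.b1 w - w * D.a1 w) := by
        simp only [Da.X, Da.gs, Da.gv, Da.gsv]
        ring
      rw [h2]
      exact hLP v hv' w hw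
    have h2 : |(s + v) * D.gvv s v - (s + w) * D.gvv s w| ≤ LM * |v - w| := by
      have e : (s + v) * D.gvv s v - (s + w) * D.gvv s w =
          (v - w) * D.gvv s v + (s + w) * ((D.a2 v - D.a2 w) * s + (D.b2 v - D.b2 w)) := by
        simp only [Da.gvv]
        ring
      rw [e]
      refine (abs_add_le _ _).trans ?_
      have h3 : |(v - w) * D.gvv s v| ≤ BG * |v - w| := by
        rw [abs_mul, mul_comm]
        exact mul_le_mul_of_nonneg_right (hBG' s hs v hv') (abs_nonneg _)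
      have hsp : 0 < s := hs0.trans_le hs.1
      have h4 : |(D.a2 v - D.a2 w) * s + (D.b2 v - D.b2 w)| ≤ (La * S + Lb) * |v - w| := by
        refine (abs_add_le _ _).trans ?_
        have h5 := hLa v w (habs v hv') (habs w hw)
        have h6 := hLb v w (habs v hv') (habs w hw)
        rw [abs_mul, abs_of_pos hsp]
        have h7 : |D.a2 v - D.a2 w| * s ≤ (La * |v - w|) * S :=
          mul_le_mul h5 hs.2 hsp.le (by positivity)
        linarith
      have h5 : |(s + w) * ((D.a2 v - D.a2 w) * s + (D.b2 v - D.b2 w))| ≤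
          (S + v0) * ((La * S + Lb) * |v - w|) := by
        rw [abs_mul]
        refine mul_le_mul ?_ h4 (abs_nonneg _) (by positivity)
        rw [abs_of_nonneg (by linarith [hw.1])]
        linarith [hs.2, hw.2]
      rw [hLM]
      linarith
    calc |min (D.X s v) 0 - min (D.X s w) 0| / m +
          BX * |(s + v) * D.gvv s v - (s + w) * D.gvv s w| / m ^ 2
        ≤ LP * |v - w| / m + BX * (LM * |v - w|) / m ^ 2 := by gcongr
      _ = LF * |v - w| := by rw [hLF]; ring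
  have hcl : ∀ u : ℝ, max 0 (min u v0) ∈ Icc 0 v0 := fun u =>
    ⟨le_max_left _ _, max_le h0.le (min_le_right _ _)⟩
  have hfb : ∀ s ∈ Icc s0 S, ∀ v ∈ Icc 0 v0, |D.fm s v| ≤ BX / m := by
    intro s hs v hv'
    have h1 := hM s hs v hv'
    rw [Da.fm, abs_div, abs_of_pos (hm0.trans_le h1)]
    exact div_le_div₀ hBX0 (hN s hs v hv') hm0 h1
  have hfn : ∀ s ∈ Icc s0 S, ∀ v ∈ Icc 0 v0, D.fm s v ≤ 0 := by
    intro s hs v hv'
    exact div_nonpos_of_nonpos_of_nonneg (min_le_right _ _) (hm0.le.trans (hM s hs v hv'))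
  have hf0 : ∀ s ∈ Icc s0 S, D.fm s 0 = 0 := by
    intro s hs
    have hsp : 0 < s := hs0.trans_le hs.1
    have h1 := hc.x0 s 0 (by rw [abs_zero]; exact hsp.le) hsp le_rfl
    rw [Da.fm, min_eq_right h1, zero_div]
  set a : ℝ := BX / m * (S - s0) with ha
  have ha0 : 0 ≤ a := mul_nonneg (by positivity) (by linarith)
  have hPL : IsPicardLindelof (fun s u => D.fm s (max 0 (min u v0)))
      (⟨s0, hmemS⟩ : Icc s0 S) v0 ⟨a, ha0⟩ 0 ⟨BX / m, by positivity⟩ ⟨LF, hLF0⟩ := by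
    refine ⟨fun s hs => ?_, fun u _ => ?_, fun s hs u _ => ?_, ?_⟩
    · refine LipschitzWith.lipschitzOnWith ?_
      refine LipschitzWith.of_dist_le_mul fun x y => ?_
      rw [Real.dist_eq, Real.dist_eq]
      exact (hfl s hs _ (hcl x) _ (hcl y)).trans
        (mul_le_mul_of_nonneg_left (Ode_clamp v0 x y) hLF0)
    · have h1 : ContinuousOn (fun s => min (D.X s (max 0 (min u v0))) 0 /
          ((s + max 0 (min u v0)) * D.gvv s (max 0 (min u v0)))) (Icc s0 S) := by
        refine ContinuousOn.div ?_ ?_ fun s hs => (hm0.trans_le (hM s hs _ (hcl u))).ne'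
        · refine Continuous.continuousOn ?_
          simp only [Da.X, Da.gs, Da.gv, Da.gsv]
          fun_prop
        · refine Continuous.continuousOn ?_
          simp only [Da.gvv]
          fun_prop
      exact h1
    · rw [Real.norm_eq_abs]
      exact hfb s hs _ (hcl u)
    · simp only [sub_self, NNReal.coe_zero, sub_zero]
      rw [max_eq_left (by linarith)]
      exact le_of_eq ha.symm
  obtain ⟨α, hα0, hα⟩ := hPL.exists_eq_forall_mem_Icc_hasDerivWithinAt₀
  have hαc : ContinuousOn α (Icc s0 S) := fun s hs => (hα s hs).continuousWithinAt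
  have hαd : ∀ s ∈ Ioo s0 S, HasDerivAt α (D.fm s (max 0 (min (α s) v0))) s := fun s hs =>
    (hα s (Ioo_subset_Icc_self hs)).hasDerivAt (Icc_mem_nhds hs.1 hs.2)
  have hanti : AntitoneOn α (Icc s0 S) := by
    refine antitoneOn_of_deriv_nonpos (convex_Icc _ _) hαc ?_ ?_
    · rw [interior_Icc]
      exact fun s hs => (hαd s hs).differentiableAt.differentiableWithinAt
    · rw [interior_Icc]
      intro s hs
      rw [(hαd s hs).deriv]
      exact hfn s (Ioo_subset_Icc_self hs) _ (hcl _)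
  have hub : ∀ s ∈ Icc s0 S, α s ≤ v0 := by
    intro s hs
    rw [← hα0]
    exact hanti hmemS hs hs.1
  have hlb : ∀ s ∈ Icc s0 S, 0 ≤ α s := by
    intro s1 hs1
    by_contra hneg
    push Not at hneg
    have hsub : Icc s0 s1 ⊆ Icc s0 S := Icc_subset_Icc le_rfl hs1.2
    have hα0' : α s0 = v0 := hα0
    obtain ⟨t, ht, ht0⟩ : ∃ t ∈ Icc s0 s1, α t = 0 := by
      have h1 := intermediate_value_Icc' hs1.1 (hαc.mono hsub)
      have h2 : (0 : ℝ) ∈ Icc (α s1) (α s0) := ⟨hneg.le, by rw [hα0']; exact h0.le⟩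
      obtain ⟨t, ht, ht'⟩ := h1 h2
      exact ⟨t, ht, ht'⟩
    have hsub2 : Icc t s1 ⊆ Icc s0 S := fun x hx => ⟨ht.1.trans hx.1, hx.2.trans hs1.2⟩
    have h3 := constant_of_has_deriv_right_zero (f := α) (a := t) (b := s1) (hαc.mono hsub2)
      (fun x hx => by
        have hxS : x ∈ Icc s0 S := hsub2 (Ico_subset_Icc_self hx)
        have hx0 : α x ≤ 0 := by
          rw [← ht0]
          exact hanti (hsub ht) hxS hx.1
        have h4 := hα x hxS
        rw [max_eq_left ((min_le_left _ _).trans hx0), hf0 x hxS] at h4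
        refine h4.mono_of_mem_nhdsWithin ?_
        exact Icc_mem_nhdsGE_of_mem ⟨hxS.1, hx.2.trans_le hs1.2⟩)
      s1 ⟨ht.2, le_rfl⟩
    rw [ht0] at h3
    exact hneg.ne h3
  refine ⟨α, h0, hv, hS, hα0, fun s hs => ⟨hlb s hs, hub s hs⟩, fun s hs => ?_⟩
  have h1 := hα s hs
  rwa [min_eq_left (hub s hs), max_eq_right (hlb s hs)] at h1

end Pool.Agent.TH937.FF4
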