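import Pool.Agent.TH937.FF4.Defs
set_option autoImplicit false
namespace Pool.Agent.TH937.FF4
open Set Filter Topology
open Pool.Agent.TH937.ZC (QL RCc)
open scoped ComplexConjugate

theorem pert_reg {D : Da} (hD : Reg D) (η : ℝ) : Reg (D.pert η) := by
  refine ⟨hD.a1, ?_, ?_, hD.c1, hD.a2, ?_, ?_, hD.c2, hD.la, ?_⟩
  · intro x
    have h1 : HasDerivAt (fun v : ℝ => η * v ^ 2 / 2) (η * x) x := by
      have := ((hasDerivAt_pow 2 x).const_mul η).div_const 2
      refine this.congr_deriv ?_
      push_cast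
      ring
    exact (hD.b1 x).add h1
  · intro x
    have h1 : HasDerivAt (fun v : ℝ => η * v ^ 2 / 2) (η * x) x := by
      have := ((hasDerivAt_pow 2 x).const_mul η).div_const 2
      refine this.congr_deriv ?_
      push_cast
      ring
    exact (hD.h1 x).add h1
  · intro x
    have h1 : HasDerivAt (fun v : ℝ => η * v) η x := by
      simpa using (hasDerivAt_id x).const_mul η
    exact (hD.b2 x).add h1
  · intro x
    have h1 : HasDerivAt (fun v : ℝ => η * v) η x := by
      simpa using (hasDerivAt_id x).const_mul η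
    exact (hD.h2 x).add h1
  · intro R
    obtain ⟨L, hL⟩ := hD.lb R
    refine ⟨L, fun x y hx hy => ?_⟩
    have := hL x y hx hy
    have e : (D.pert η).b2 x - (D.pert η).b2 y = D.b2 x - D.b2 y := by
      simp only [Da.pert]; ring
    rw [e]; exact this

theorem pert_cn {D : Da} (hc : Cn D 0) {η : ℝ} (hη : 0 ≤ η) : Cn (D.pert η) η := by
  have egs : ∀ s v, (D.pert η).gs s v = D.gs s v + η * s := fun s v => by
    simp only [Da.gs, Da.pert]; ring
  have egv : ∀ s v, (D.pert η).gv s v = D.gv s v + η * v := fun s v => by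
    simp only [Da.gv, Da.pert]; ring
  have egss : ∀ s v, (D.pert η).gss s v = D.gss s v + η := fun s v => by
    simp only [Da.gss, Da.pert]; ring
  have egvv : ∀ s v, (D.pert η).gvv s v = D.gvv s v + η := fun s v => by
    simp only [Da.gvv, Da.pert]; ring
  have eX : ∀ s v, (D.pert η).X s v = D.X s v + η * (s + v) := fun s v => by
    simp only [Da.X, Da.gs, Da.gv, Da.gsv, Da.pert]; ring
  have eY : ∀ s v, (D.pert η).Y s v = D.Y s v + η * (s - v) := fun s v => by
    simp only [Da.Y, Da.gs, Da.gv, Da.gsv, Da.pert]; ring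
  have eg : ∀ s v, (D.pert η).g s v = D.g s v + η * (s ^ 2 + v ^ 2) / 2 := fun s v => by
    simp only [Da.g, Da.pert]; ring
  refine ⟨?_, ?_, ?_, ?_, ?_, ?_, ?_⟩
  · intro s v hv hs
    rw [egss]; have := hc.ss s v hv hs; linarith
  · intro s v hv hs
    rw [egvv]; have := hc.vv s v hv hs; linarith
  · intro s v hv hs h0
    rw [eX]; have := hc.x0 s v hv hs h0
    have h1 : 0 ≤ s + v := by have := neg_abs_le v; linarith
    have := mul_nonneg hη h1
    linarith
  · intro s v hv hs h0
    rw [eY]; have := hc.y0 s v hv hs h0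
    have h1 : 0 ≤ s - v := by have := le_abs_self v; linarith
    have := mul_nonneg hη h1
    linarith
  · intro s v hv
    rw [egs, egv]; have := hc.al s v hv
    have h1 : 0 ≤ s + v := by have := neg_abs_le v; linarith
    have h2 : 0 ≤ s - v := by have := le_abs_self v; linarith
    have := mul_nonneg hη (mul_nonneg h1 h2)
    nlinarith
  · intro s v l hv hl
    rw [egss, egvv, eX]
    have := hc.rx s v l hv hl
    have h1 : 0 < s + v := by have := neg_abs_le v; linarith
    have e : D.gss s v + η + l ^ 2 * (D.gvv s v + η) + 2 * l * (D.X s v + η * (s + v)) / (s + v) =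
        (D.gss s v + l ^ 2 * D.gvv s v + 2 * l * D.X s v / (s + v)) + η * (1 + l) ^ 2 := by
      field_simp
      ring
    rw [e]
    have := mul_nonneg hη (sq_nonneg (1 + l))
    linarith
  · intro p0 q0 p q hp0 hq0 hp hq h1 h2
    have := hc.tl p0 q0 p q hp0 hq0 hp hq h1 h2
    rw [eg, eg, egs, egv]
    have e : D.g (p0 + q0) (p0 - q0) + η * ((p0 + q0) ^ 2 + (p0 - q0) ^ 2) / 2
      + (D.gs (p0 + q0) (p0 - q0) + η * (p0 + q0) + (D.gv (p0 + q0) (p0 - q0) + η * (p0 - q0)))
        * ((p ^ 2 - p0 ^ 2 - (q - q0) ^ 2) / (2 * p0))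
      + (D.gs (p0 + q0) (p0 - q0) + η * (p0 + q0) - (D.gv (p0 + q0) (p0 - q0) + η * (p0 - q0)))
        * (q - q0) =
      (D.g (p0 + q0) (p0 - q0)
      + (D.gs (p0 + q0) (p0 - q0) + D.gv (p0 + q0) (p0 - q0))
        * ((p ^ 2 - p0 ^ 2 - (q - q0) ^ 2) / (2 * p0))
      + (D.gs (p0 + q0) (p0 - q0) - D.gv (p0 + q0) (p0 - q0)) * (q - q0)) +
      η * (p ^ 2 + q ^ 2) - 2 * (η * (q - q0) ^ 2) := by
      field_simp
      ring
    rw [e]
    have h3 := mul_nonneg hη (sq_nonneg (q - q0))
    nlinarith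

end Pool.Agent.TH937.FF4
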