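import Pool.Agent.TH937.FF4.Defs

set_option autoImplicit false

namespace Pool.Agent.TH937.FF4

open Set Filter Topology

private theorem phase_cont_of_lip (f : ℝ → ℝ)
    (hf : ∀ R : ℝ, ∃ L : ℝ, ∀ x y, |x| ≤ R → |y| ≤ R → |f x - f y| ≤ L * |x - y|) :
    Continuous f := by
  rw [continuous_iff_continuousAt]
  intro x
  obtain ⟨L, hL⟩ := hf (|x| + 1)
  rw [ContinuousAt, tendsto_iff_norm_sub_tendsto_zero]
  have h1 : Tendsto (fun y => L * |y - x|) (𝓝 x) (𝓝 0) := by
    have : Continuous fun y : ℝ => L * |y - x| := by fun_prop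
    have h2 := this.tendsto x
    simpa using h2
  refine squeeze_zero' (Eventually.of_forall fun y => norm_nonneg _) ?_ h1
  have hnear : ∀ᶠ y in 𝓝 x, |y - x| < 1 := by
    have := Metric.ball_mem_nhds x (show (0 : ℝ) < 1 by norm_num)
    filter_upwards [this] with y hy
    rwa [Metric.mem_ball, Real.dist_eq] at hy
  filter_upwards [hnear] with y hy
  rw [Real.norm_eq_abs]
  refine hL y x ?_ (by linarith)
  have : |y| ≤ |x| + |y - x| := by
    have := abs_add_le x (y - x)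
    rwa [add_sub_cancel] at this
  linarith

private theorem phase_quot_lip {n n' d d' δ N A B t : ℝ} (hδ : 0 < δ) (hd : δ ≤ d) (hd' : δ ≤ d')
    (hn' : |n'| ≤ N) (h1 : |n - n'| ≤ A * t) (h2 : |d - d'| ≤ B * t)
    (hN : 0 ≤ N) : |n / d - n' / d'| ≤ (A / δ + N * B / δ ^ 2) * t := by
  have hd0 : 0 < d := hδ.trans_le hd
  have hd0' : 0 < d' := hδ.trans_le hd'
  have e : n / d - n' / d' = (n - n') / d + n' * (d' - d) / (d * d') := by
    field_simp; ring
  rw [e]
  have hAt : 0 ≤ A * t := (abs_nonneg _).trans h1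
  have hBt : 0 ≤ B * t := (abs_nonneg _).trans h2
  have i1 : |(n - n') / d| ≤ A * t / δ := by
    rw [abs_div, abs_of_pos hd0]
    exact div_le_div₀ hAt h1 hδ hd
  have i2 : |n' * (d' - d) / (d * d')| ≤ N * (B * t) / δ ^ 2 := by
    rw [abs_div, abs_mul, abs_of_pos (mul_pos hd0 hd0')]
    refine div_le_div₀ (mul_nonneg hN hBt) ?_ (by positivity) ?_
    · refine mul_le_mul hn' ?_ (abs_nonneg _) hN
      rw [abs_sub_comm]; exact h2
    · rw [sq]; exact mul_le_mul hd hd' hδ.le hd0.le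
  calc |(n - n') / d + n' * (d' - d) / (d * d')|
      ≤ |(n - n') / d| + |n' * (d' - d) / (d * d')| := abs_add_le _ _
    _ ≤ A * t / δ + N * (B * t) / δ ^ 2 := add_le_add i1 i2
    _ = (A / δ + N * B / δ ^ 2) * t := by ring

private theorem phase_bdd_on (f : ℝ × ℝ → ℝ) (K : Set (ℝ × ℝ)) (hK : IsCompact K)
    (hf : ContinuousOn f K) : ∃ M : ℝ, 0 ≤ M ∧ ∀ p ∈ K, |f p| ≤ M := by
  obtain ⟨C, hC⟩ := hK.exists_bound_of_continuousOn hf
  exact ⟨max C 0, le_max_right _ _, fun p hp => (hC p hp).trans (le_max_left _ _)⟩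

private theorem phase_bdd1 (f : ℝ → ℝ) (hf : Continuous f) (a b : ℝ) :
    ∃ M : ℝ, 0 ≤ M ∧ ∀ x ∈ Icc a b, |f x| ≤ M := by
  obtain ⟨C, hC⟩ := isCompact_Icc.exists_bound_of_continuousOn (hf.continuousOn (s := Icc a b))
  exact ⟨max C 0, le_max_right _ _, fun p hp => (hC p hp).trans (le_max_left _ _)⟩

private theorem phase_X_lip {D : Da} (hD : Reg D) {v0 A2 B2 : ℝ} (h0 : 0 ≤ v0)
    (hA : ∀ x ∈ Icc 0 v0, |D.a2 x| ≤ A2) (hB : ∀ x ∈ Icc 0 v0, |D.b2 x| ≤ B2) (s : ℝ)
    {v v' : ℝ} (hv : v ∈ Icc 0 v0) (hv' : v' ∈ Icc 0 v0) :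
    |D.X s v - D.X s v'| ≤ (B2 + v0 * A2) * |v - v'| := by
  have hder : ∀ x ∈ Icc 0 v0, HasDerivWithinAt (fun v => D.X s v) (D.b2 x - x * D.a2 x)
      (Icc 0 v0) x := by
    intro x hx
    have h1 := ((((hD.a1 x).add_const (D.h1 s)).add ((hasDerivAt_id x).const_mul (D.c1 s))).add
      ((((hD.a2 x).mul_const s).add (hD.b2 x)).add_const (D.c s))).sub
      (((hasDerivAt_id x).const_add s).mul ((hD.a2 x).add_const (D.c1 s)))
    refine (h1.congr_deriv ?_).hasDerivWithinAt.congr_of_eventuallyEq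
      (Eventually.of_forall fun y => ?_) ?_
    · simp only [id]
      ring
    · simp only [Da.X, Da.gs, Da.gv, Da.gsv, id, Pi.add_apply, Pi.sub_apply, Pi.mul_apply]
    · simp only [Da.X, Da.gs, Da.gv, Da.gsv, id, Pi.add_apply, Pi.sub_apply, Pi.mul_apply]
  have hb : ∀ x ∈ Icc 0 v0, ‖D.b2 x - x * D.a2 x‖ ≤ B2 + v0 * A2 := by
    intro x hx
    rw [Real.norm_eq_abs]
    have i1 : |x * D.a2 x| ≤ v0 * A2 := by
      rw [abs_mul, abs_of_nonneg hx.1]
      exact mul_le_mul hx.2 (hA x hx) (abs_nonneg _) h0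
    have := abs_sub (D.b2 x) (x * D.a2 x)
    linarith [hB x hx]
  have := (convex_Icc (0 : ℝ) v0).norm_image_sub_le_of_norm_hasDerivWithin_le hder hb hv' hv
  simpa [Real.norm_eq_abs] using this

private theorem phase_fm_lip {D : Da} {η : ℝ} (hD : Reg D) (hc : Cn D η) (hη : 0 < η) {s0 v0 S : ℝ}
    (h0 : 0 < v0) (hv : v0 < s0) (hS : s0 < S) : ∃ C : ℝ, 0 ≤ C ∧ ∀ s v v', s ∈ Icc s0 S →
      v ∈ Icc 0 v0 → v' ∈ Icc 0 v0 → |D.fm s v - D.fm s v'| ≤ C * |v - v'| := by
  have hs0 : 0 < s0 := h0.trans hv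
  have ca2 : Continuous D.a2 := phase_cont_of_lip _ hD.la
  have cb2 : Continuous D.b2 := phase_cont_of_lip _ hD.lb
  have ca : Continuous D.a := continuous_iff_continuousAt.2 fun x => (hD.a1 x).continuousAt
  have ca1 : Continuous D.a1 := continuous_iff_continuousAt.2 fun x => (hD.a2 x).continuousAt
  have cb1 : Continuous D.b1 := continuous_iff_continuousAt.2 fun x => (hD.b2 x).continuousAt
  have ch1 : Continuous D.h1 := continuous_iff_continuousAt.2 fun x => (hD.h2 x).continuousAt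
  have cc : Continuous D.c := continuous_iff_continuousAt.2 fun x => (hD.c1 x).continuousAt
  have cc1 : Continuous D.c1 := continuous_iff_continuousAt.2 fun x => (hD.c2 x).continuousAt
  have cX : Continuous fun p : ℝ × ℝ => D.X p.1 p.2 := by
    unfold Da.X Da.gs Da.gv Da.gsv
    fun_prop
  have cG : Continuous fun p : ℝ × ℝ => D.gvv p.1 p.2 := by
    unfold Da.gvv
    fun_prop
  set K : Set (ℝ × ℝ) := Icc s0 S ×ˢ Icc 0 v0 with hK
  have hKc : IsCompact K := isCompact_Icc.prod isCompact_Icc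
  have hGpos : ∀ s v, s0 ≤ s → 0 ≤ v → v ≤ v0 → η ≤ D.gvv s v := by
    intro s v hs hv0 hv1
    refine hc.vv s v ?_ (hs0.trans_le hs)
    rw [abs_of_nonneg hv0]; linarith
  have hden : ∀ s v, s0 ≤ s → 0 ≤ v → v ≤ v0 → s0 * η ≤ (s + v) * D.gvv s v := by
    intro s v hs hv0 hv1
    exact mul_le_mul (by linarith) (hGpos s v hs hv0 hv1) hη.le (by linarith)
  have hδ : 0 < s0 * η := mul_pos hs0 hη
  have cfm : ContinuousOn (fun p : ℝ × ℝ => D.fm p.1 p.2) K := by
    unfold Da.fm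
    refine ContinuousOn.div ?_ ?_ ?_
    · exact (cX.min continuous_const).continuousOn
    · exact ((continuous_fst.add continuous_snd).mul cG).continuousOn
    · rintro ⟨s, v⟩ ⟨h1, h2⟩
      have := hden s v h1.1 h2.1 h2.2
      exact (hδ.trans_le this).ne'
  obtain ⟨M, hM0, hM⟩ := phase_bdd_on _ K hKc cfm
  obtain ⟨N, hN0, hN⟩ := phase_bdd_on (fun p => min (D.X p.1 p.2) 0) K hKc
    (cX.min continuous_const).continuousOn
  obtain ⟨A2, hA0, hA⟩ := phase_bdd1 D.a2 ca2 0 v0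
  obtain ⟨B2, hB0, hB⟩ := phase_bdd1 D.b2 cb2 0 v0
  obtain ⟨La, hLa⟩ := hD.la v0
  obtain ⟨Lb, hLb⟩ := hD.lb v0
  set La' := max La 0 with hLa'
  set Lb' := max Lb 0 with hLb'
  -- Lipschitz constant
  set CN : ℝ := B2 + v0 * A2 with hCN
  set CD : ℝ := (S + v0) * (La' * S + Lb') + (A2 * S + B2) with hCD
  set C : ℝ := CN / (s0 * η) + N * CD / (s0 * η) ^ 2 with hC
  have hSpos : 0 < S := hs0.trans hS
  have hLa0 : 0 ≤ La' := le_max_right _ _
  have hLb0 : 0 ≤ Lb' := le_max_right _ _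
  have hC0 : 0 ≤ C := by positivity
  have hlip : ∀ s v v', s ∈ Icc s0 S → v ∈ Icc 0 v0 → v' ∈ Icc 0 v0 →
      |D.fm s v - D.fm s v'| ≤ C * |v - v'| := by
    intro s v v' hs hv1 hv2
    unfold Da.fm
    refine phase_quot_lip hδ (hden s v hs.1 hv1.1 hv1.2) (hden s v' hs.1 hv2.1 hv2.2)
      (hN (s, v') ⟨hs, hv2⟩) ?_ ?_ hN0
    · refine (abs_min_sub_min_le_max _ _ _ _).trans ?_
      rw [sub_self, abs_zero, max_eq_left (abs_nonneg _)]
      exact phase_X_lip hD h0.le hA hB s hv1 hv2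
    · have hvv : |v| ≤ v0 := by rw [abs_of_nonneg hv1.1]; exact hv1.2
      have hvv' : |v'| ≤ v0 := by rw [abs_of_nonneg hv2.1]; exact hv2.2
      have e1 : (s + v) * D.gvv s v - (s + v') * D.gvv s v' =
          (s + v) * ((D.a2 v - D.a2 v') * s + (D.b2 v - D.b2 v')) +
          (v - v') * (D.a2 v' * s + D.b2 v') := by
        unfold Da.gvv; ring
      rw [e1]
      have hs1 : 0 ≤ s := hs0.le.trans hs.1
      have j1 : |D.a2 v - D.a2 v'| ≤ La' * |v - v'| :=
        (hLa v v' hvv hvv').trans (mul_le_mul_of_nonneg_right (le_max_left _ _) (abs_nonneg _))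
      have j2 : |D.b2 v - D.b2 v'| ≤ Lb' * |v - v'| :=
        (hLb v v' hvv hvv').trans (mul_le_mul_of_nonneg_right (le_max_left _ _) (abs_nonneg _))
      have j3 : |(D.a2 v - D.a2 v') * s + (D.b2 v - D.b2 v')| ≤ (La' * S + Lb') * |v - v'| := by
        refine (abs_add_le _ _).trans ?_
        rw [abs_mul, abs_of_nonneg hs1]
        have : |D.a2 v - D.a2 v'| * s ≤ La' * |v - v'| * S :=
          mul_le_mul j1 hs.2 hs1 (by positivity)
        nlinarith [j2]
      have j4 : |D.a2 v' * s + D.b2 v'| ≤ A2 * S + B2 := by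
        refine (abs_add_le _ _).trans ?_
        rw [abs_mul, abs_of_nonneg hs1]
        have : |D.a2 v'| * s ≤ A2 * S := mul_le_mul (hA v' hv2) hs.2 hs1 hA0
        linarith [hB v' hv2]
      refine (abs_add_le _ _).trans ?_
      rw [abs_mul, abs_mul, abs_of_nonneg (add_nonneg hs1 hv1.1)]
      have j5 : (s + v) * |(D.a2 v - D.a2 v') * s + (D.b2 v - D.b2 v')| ≤
          (S + v0) * ((La' * S + Lb') * |v - v'|) :=
        mul_le_mul (add_le_add hs.2 hv1.2) j3 (abs_nonneg _) (by positivity)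
      have j6 : |v - v'| * |D.a2 v' * s + D.b2 v'| ≤ |v - v'| * (A2 * S + B2) :=
        mul_le_mul_of_nonneg_left j4 (abs_nonneg _)
      calc _ ≤ (S + v0) * ((La' * S + Lb') * |v - v'|) + |v - v'| * (A2 * S + B2) :=
            add_le_add j5 j6
        _ = CD * |v - v'| := by rw [hCD]; ring
  exact ⟨C, hC0, hlip⟩

private theorem phase_Xmono {D : Da} {η : ℝ} (hD : Reg D) (hc : Cn D η) {s0 S : ℝ}
    (hs0 : 0 < s0) (v : ℝ) : MonotoneOn (fun s => D.X s v) (Icc s0 S) := by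
  have hder : ∀ s, HasDerivAt (fun s => D.X s v) (D.h2 s - s * D.c2 s) s := by
    intro s
    have h1 := ((((hD.h2 s).const_add (D.a v)).add ((hD.c2 s).mul_const v)).add
      ((((hasDerivAt_id s).const_mul (D.a1 v)).add_const (D.b1 v)).add (hD.c1 s))).sub
      (((hasDerivAt_id s).add_const v).mul ((hD.c2 s).const_add (D.a1 v)))
    refine (h1.congr_deriv ?_).congr_of_eventuallyEq (Eventually.of_forall fun y => ?_)
    · simp only [id]
      ring
    · simp only [Da.X, Da.gs, Da.gv, Da.gsv, id, Pi.add_apply, Pi.sub_apply, Pi.mul_apply]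
  refine monotoneOn_of_deriv_nonneg (convex_Icc _ _)
    (fun s _ => (hder s).continuousAt.continuousWithinAt)
    (fun s _ => (hder s).differentiableAt.differentiableWithinAt) ?_
  rw [interior_Icc]
  intro s hs
  rw [(hder s).deriv]
  have hsp : 0 < s := hs0.trans hs.1
  have := hc.ss s (-s) (by rw [abs_neg, abs_of_pos hsp]) hsp
  unfold Da.gss at this
  linarith

theorem phase {D : Da} {η : ℝ} (hD : Reg D) (hc : Cn D η) (hη : 0 < η) {s0 v0 S : ℝ}
    {γ : ℝ → ℝ} (hγ : Cv D s0 v0 S γ) : ∃ sb ∈ Icc s0 S,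
      (∀ s ∈ Ico s0 sb, D.X s (γ s) ≤ 0) ∧
      (∀ s ∈ Ioc sb S, γ s = γ sb ∧ 0 ≤ D.X s (γ s)) ∧
      AntitoneOn γ (Icc s0 S) ∧
      (∀ v, γ S ≤ v → v ≤ v0 → γ S < v0 → D.X s0 v ≤ 0) := by
  have h0 : 0 < v0 := hγ.v0pos
  have hv0 := hγ.hv
  have hS := hγ.hS
  have hs0 : 0 < s0 := h0.trans hv0
  have ca : Continuous D.a := continuous_iff_continuousAt.2 fun x => (hD.a1 x).continuousAt
  have ca1 : Continuous D.a1 := continuous_iff_continuousAt.2 fun x => (hD.a2 x).continuousAt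
  have cb1 : Continuous D.b1 := continuous_iff_continuousAt.2 fun x => (hD.b2 x).continuousAt
  have ch1 : Continuous D.h1 := continuous_iff_continuousAt.2 fun x => (hD.h2 x).continuousAt
  have cc : Continuous D.c := continuous_iff_continuousAt.2 fun x => (hD.c1 x).continuousAt
  have cc1 : Continuous D.c1 := continuous_iff_continuousAt.2 fun x => (hD.c2 x).continuousAt
  have cX : Continuous fun p : ℝ × ℝ => D.X p.1 p.2 := by
    unfold Da.X Da.gs Da.gv Da.gsv
    fun_prop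
  have hcont : ContinuousOn γ (Icc s0 S) := fun s hs => (hγ.de s hs).continuousWithinAt
  have cZ : ContinuousOn (fun s => D.X s (γ s)) (Icc s0 S) := by
    have h1 : ContinuousOn (fun s => ((s, γ s) : ℝ × ℝ)) (Icc s0 S) :=
      continuousOn_id.prodMk hcont
    exact cX.comp_continuousOn h1
  obtain ⟨C, hC0, hlip⟩ := phase_fm_lip hD hc hη h0 hv0 hS
  have hbd : ∀ s ∈ Icc s0 S, γ s ∈ Icc 0 v0 := fun s hs => ⟨(hγ.bd s hs).1, (hγ.bd s hs).2⟩
  have hda : ∀ s ∈ Ioo s0 S, HasDerivAt γ (D.fm s (γ s)) s := fun s hs =>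
    (hγ.de s (Ioo_subset_Icc_self hs)).hasDerivAt (Icc_mem_nhds hs.1 hs.2)
  have hfneg : ∀ s ∈ Icc s0 S, D.fm s (γ s) ≤ 0 := by
    intro s hs
    have hb := hγ.bd s hs
    have h1 : 0 < s := hs0.trans_le hs.1
    have h2 : η ≤ D.gvv s (γ s) := hc.vv s (γ s) (by rw [abs_of_nonneg hb.1]; linarith [hs.1]) h1
    exact div_nonpos_of_nonpos_of_nonneg (min_le_right _ _)
      (mul_nonneg (by linarith) (by linarith))
  have hanti : AntitoneOn γ (Icc s0 S) := by
    refine antitoneOn_of_deriv_nonpos (convex_Icc s0 S) hcont ?_ ?_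
    · rw [interior_Icc]
      exact fun s hs => (hda s hs).differentiableAt.differentiableWithinAt
    · rw [interior_Icc]
      intro s hs
      rw [(hda s hs).deriv]
      exact hfneg s (Ioo_subset_Icc_self hs)
  have hXm := fun v => phase_Xmono hD hc (S := S) hs0 v
  -- the claim
  have claim : ∀ s' ∈ Icc s0 S, 0 ≤ D.X s' (γ s') → ∀ s ∈ Icc s' S,
      γ s = γ s' ∧ 0 ≤ D.X s (γ s) := by
    intro s' hs' hX' s hs
    have hsub : Icc s' S ⊆ Icc s0 S := Icc_subset_Icc hs'.1 le_rfl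
    have hXc : ∀ t ∈ Icc s' S, 0 ≤ D.X t (γ s') := fun t ht =>
      hX'.trans (hXm (γ s') hs' (hsub ht) ht.1)
    have heq : EqOn γ (fun _ => γ s') (Icc s' S) := by
      refine ODE_solution_unique_of_mem_Icc_right (v := fun t u => D.fm t u)
        (s := fun _ => Icc 0 v0) (K := Real.toNNReal C) ?_ (hcont.mono hsub) ?_ ?_
        continuousOn_const ?_ ?_ rfl
      · intro t ht
        refine LipschitzOnWith.of_dist_le_mul fun u hu u' hu' => ?_
        rw [Real.dist_eq, Real.dist_eq, Real.coe_toNNReal _ hC0]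
        exact hlip t u u' (hsub (Ico_subset_Icc_self ht)) hu hu'
      · intro t ht
        have h1 := (hγ.de t (hsub (Ico_subset_Icc_self ht))).mono
          (Icc_subset_Icc (hs'.1.trans ht.1) le_rfl : Icc t S ⊆ Icc s0 S)
        exact h1.mono_of_mem_nhdsWithin (Icc_mem_nhdsGE ht.2)
      · intro t ht
        exact hbd t (hsub (Ico_subset_Icc_self ht))
      · intro t ht
        have h1 : D.fm t (γ s') = 0 := by
          unfold Da.fm
          rw [min_eq_right (hXc t (Ico_subset_Icc_self ht)), zero_div]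
        simp only [h1]
        exact hasDerivWithinAt_const _ _ _
      · intro t _
        exact hbd s' hs'
    have h1 : γ s = γ s' := heq hs
    refine ⟨h1, ?_⟩
    rw [h1]
    exact hXc s hs
  have last : ∀ sb ∈ Icc s0 S, (∀ s ∈ Ico s0 sb, D.X s (γ s) ≤ 0) →
      (∀ s ∈ Ioc sb S, γ s = γ sb) → (s0 < sb → D.X sb (γ sb) ≤ 0) →
      (∀ v, γ S ≤ v → v ≤ v0 → γ S < v0 → D.X s0 v ≤ 0) := by
    intro sb hb h1 h2 h3 v hv1 hv2 hv3
    obtain ⟨s, hs, hsv⟩ : v ∈ γ '' Icc s0 S := by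
      have := intermediate_value_Icc' hS.le hcont
      exact this ⟨hv1, by rw [hγ.ini]; exact hv2⟩
    have hXs : ∃ t ∈ Icc s0 S, γ t = v ∧ D.X t v ≤ 0 := by
      rcases lt_or_ge s sb with h | h
      · refine ⟨s, hs, hsv, ?_⟩
        rw [← hsv]; exact h1 s ⟨hs.1, h⟩
      · have e : γ s = γ sb := by
          rcases h.eq_or_lt with h' | h'
          · rw [h']
          · exact h2 s ⟨h', hs.2⟩
        refine ⟨sb, hb, by rw [← e, hsv], ?_⟩
        rw [← hsv, e]
        apply h3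
        rcases hb.1.eq_or_lt with h' | h'
        · exfalso
          have h5 : γ S = v0 := by
            rcases hb.2.eq_or_lt with h6 | h6
            · exfalso; linarith
            · rw [h2 S ⟨h6, le_rfl⟩, ← h', hγ.ini]
          linarith
        · exact h'
    obtain ⟨t, ht, _, hXt⟩ := hXs
    exact (hXm v (left_mem_Icc.2 hS.le) ht ht.1).trans hXt
  set A : Set ℝ := Icc s0 S ∩ (fun s => D.X s (γ s)) ⁻¹' Ici 0 with hA
  have hAc : IsCompact A := isCompact_Icc.of_isClosed_subset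
    (cZ.preimage_isClosed_of_isClosed isClosed_Icc isClosed_Ici) inter_subset_left
  rcases A.eq_empty_or_nonempty with hem | hne
  · have hneg : ∀ s ∈ Icc s0 S, D.X s (γ s) < 0 := by
      intro s hs
      by_contra h
      push Not at h
      have : s ∈ A := ⟨hs, h⟩
      rw [hem] at this
      exact this
    have hSm : S ∈ Icc s0 S := right_mem_Icc.2 hS.le
    refine ⟨S, hSm, fun s hs => (hneg s (Ico_subset_Icc_self hs)).le,
      fun s hs => absurd hs.1 (not_lt.2 hs.2), hanti, ?_⟩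
    exact last S hSm (fun s hs => (hneg s (Ico_subset_Icc_self hs)).le)
      (fun s hs => absurd hs.1 (not_lt.2 hs.2)) (fun _ => (hneg S hSm).le)
  · have hmem := hAc.sInf_mem hne
    set sb := sInf A with hsb
    have hlt : ∀ s ∈ Ico s0 sb, D.X s (γ s) ≤ 0 := by
      intro s hs
      by_contra h
      push Not at h
      have : s ∈ A := ⟨⟨hs.1, hs.2.le.trans hmem.1.2⟩, h.le⟩
      have := csInf_le hAc.bddBelow this
      linarith [hs.2]
    have hgt : ∀ s ∈ Ioc sb S, γ s = γ sb ∧ 0 ≤ D.X s (γ s) := fun s hs =>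
      claim sb hmem.1 hmem.2 s ⟨hs.1.le, hs.2⟩
    refine ⟨sb, hmem.1, hlt, hgt, hanti, ?_⟩
    refine last sb hmem.1 hlt (fun s hs => (hgt s hs).1) fun hlt0 => ?_
    have h1 : ContinuousWithinAt (fun s => D.X s (γ s)) (Ico s0 sb) sb :=
      (cZ sb hmem.1).mono fun s hs => ⟨hs.1, hs.2.le.trans hmem.1.2⟩
    have h2 : sb ∈ closure (Ico s0 sb) := by
      rw [closure_Ico hlt0.ne]
      exact right_mem_Icc.2 hlt0.le
    have : (𝓝[Ico s0 sb] sb).NeBot := mem_closure_iff_nhdsWithin_neBot.1 h2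
    exact le_of_tendsto h1 (eventually_nhdsWithin_of_forall hlt)

end Pool.Agent.TH937.FF4
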