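import Pool.Agent.TH937.FF4.Defs

/-!
# The functions `A(s) + C(s) v`
-/

set_option autoImplicit false
namespace Pool.Agent.TH937.FF4
open Set Filter Topology
open Pool.Agent.TH937.ZC (QL RCc)
open scoped ComplexConjugate

private theorem Qlt_eq {A C : ℝ → ℝ} {t τ : ℝ} (h : |τ| ≤ t) :
    A t + C t * τ = A t + C t / t * (t * τ) := by
  rcases eq_or_lt_of_le ((abs_nonneg τ).trans h) with h0 | h0
  · subst h0
    have : τ = 0 := abs_nonpos_iff.1 h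
    subst this
    simp
  · field_simp

private theorem Qlt_RC {A C : ℝ → ℝ} (h1 : ∀ τ : ℝ, ConvexOn ℝ (Ici |τ|) (fun t => A t + C t * τ))
    (h2 : ∀ u t, 0 ≤ u → u ≤ t →
        A u + C u * t ≤ A t + C t * u ∧ A u - C u * t ≤ A t - C t * u) :
    Pool.Agent.W360.MQ.RC A (fun s => C s / s) := by
  refine Pool.Agent.TH937.TF.RC_of ?_ ?_
  · intro τ
    exact (h1 τ).congr fun t ht => Qlt_eq ht
  · intro τ t ht
    rw [← Qlt_eq (A := A) (C := C) ht]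
    obtain ⟨h3, h4⟩ := h2 |τ| t (abs_nonneg τ) ht
    rcases lt_trichotomy τ 0 with h | h | h
    · rw [abs_of_neg h] at h3 h4 ⊢
      have e : C (-τ) / (-τ) * (t * τ) = -(C (-τ) * t) := by
        have : τ ≠ 0 := h.ne
        field_simp
      rw [e]
      linarith
    · subst h
      rw [abs_zero] at h3 h4 ⊢
      simp only [div_zero, mul_zero, add_zero]
      linarith
    · rw [abs_of_pos h] at h3 h4 ⊢
      have e : C τ / τ * (t * τ) = C τ * t := by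
        field_simp
      rw [e]
      linarith

private theorem Qlt_wf (A C : ℝ → ℝ) :
    (fun F : ℂ × ℂ => A (‖F.1‖ + ‖F.2‖) + C (‖F.1‖ + ‖F.2‖) * (‖F.1‖ - ‖F.2‖)) =
      Pool.Agent.W360.MQ.wf A (fun s => C s / s) := by
  funext F
  unfold Pool.Agent.W360.MQ.wf
  have n1 := norm_nonneg F.1
  have n2 := norm_nonneg F.2
  have e : ‖F.1‖ ^ 2 - ‖F.2‖ ^ 2 = (‖F.1‖ + ‖F.2‖) * (‖F.1‖ - ‖F.2‖) := by ring
  rw [e]
  exact Qlt_eq (by rw [abs_le]; constructor <;> linarith)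

theorem ql_T {A C : ℝ → ℝ} (h1 : ∀ τ : ℝ, ConvexOn ℝ (Ici |τ|) (fun t => A t + C t * τ))
    (h2 : ∀ u t, 0 ≤ u → u ≤ t →
        A u + C u * t ≤ A t + C t * u ∧ A u - C u * t ≤ A t - C t * u) (F0 : ℂ × ℂ) :
    Continuous (fun F : ℂ × ℂ => A (‖F.1‖ + ‖F.2‖) + C (‖F.1‖ + ‖F.2‖) * (‖F.1‖ - ‖F.2‖)) ∧
    QL (fun F : ℂ × ℂ => A (‖F.1‖ + ‖F.2‖) + C (‖F.1‖ + ‖F.2‖) * (‖F.1‖ - ‖F.2‖)) F0 := by
  rw [Qlt_wf A C]
  have hRC := Qlt_RC h1 h2
  have hc := Pool.Agent.W215.MQ.Cont.main A (fun s => C s / s) hRC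
  exact ⟨hc, Pool.Agent.TH937.ZC.QL_of_QA hc
    (Pool.Agent.W360.MQ.Fin.qa A (fun s => C s / s) hRC) F0⟩

end Pool.Agent.TH937.FF4
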