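import Pool.Agent.TH937.FF4.Defs

set_option autoImplicit false

namespace Pool.Agent.TH937.FF4

open Set Filter Topology
open Pool.Agent.TH937.ZC (QL RCc)
open scoped ComplexConjugate

theorem signs {D : Da} {η : ℝ} (hc : Cn D η) {s v : ℝ} (h : 0 ≤ v) (h' : v < s) :
    0 ≤ (D.gs s v - v * D.kk s v) + D.gv s v - s * D.kk s v ∧
    0 ≤ (D.gs s v - v * D.kk s v) - D.gv s v + s * D.kk s v := by
  have hs : 0 < s := lt_of_le_of_lt h h'
  have hsv : 0 < s + v := by linarith
  have hne : s + v ≠ 0 := hsv.ne'
  have habs : |v| < s := by rw [abs_of_nonneg h]; exact h'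
  have hX : D.X s v = D.gs s v + D.gv s v - (s + v) * D.gsv s v := rfl
  have hY : D.Y s v = D.gs s v - D.gv s v + (s - v) * D.gsv s v := rfl
  have hk : (s + v) * D.kk s v = (s + v) * D.gsv s v + min (D.X s v) 0 := by
    unfold Da.kk
    field_simp
  refine ⟨?_, ?_⟩
  · have h1 : (D.gs s v - v * D.kk s v) + D.gv s v - s * D.kk s v
        = D.X s v - min (D.X s v) 0 := by
      rw [hX] at hk ⊢
      linear_combination -hk
    rw [h1]
    exact sub_nonneg.mpr (min_le_left _ _)
  · rcases le_or_gt 0 (D.X s v) with hx | hx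
    · have hm : min (D.X s v) 0 = 0 := min_eq_right hx
      have hk2 : D.kk s v = D.gsv s v := by
        unfold Da.kk
        rw [hm, zero_div, add_zero]
      have hy := hc.y0 s v habs.le hs h
      rw [hY] at hy
      rw [hk2]
      linarith
    · have hm : min (D.X s v) 0 = D.X s v := min_eq_left hx.le
      have ha := hc.al s v habs
      rw [hm, hX] at hk
      have h2 : 0 ≤ (s + v) * ((D.gs s v - v * D.kk s v) - D.gv s v + s * D.kk s v) := by
        have h3 : (s + v) * ((D.gs s v - v * D.kk s v) - D.gv s v + s * D.kk s v)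
            = 2 * (s * D.gs s v - v * D.gv s v) := by
          linear_combination (s - v) * hk
        rw [h3]
        linarith
      exact nonneg_of_mul_nonneg_right h2 hsv

end Pool.Agent.TH937.FF4
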