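import Pool.Agent.TH937.FF4.Defs

/-!
# Rank-one convexity and the pure second derivatives
-/

set_option autoImplicit false

namespace Pool.Agent.TH937.FF4

open Set Filter Topology
open Pool.Agent.TH937.ZC (QL RCc)
open scoped ComplexConjugate

/-- the function at the diagonal matrix -/
theorem ssVv_diag (D : Da) {s v : ℝ} (h : |v| ≤ s) :
    D.w ((((v + s) / 2 : ℝ) : ℂ), (((v - s) / 2 : ℝ) : ℂ)) = D.g s v := by
  have h' := abs_le.1 h
  unfold Da.w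
  simp only [Complex.norm_real, Real.norm_eq_abs]
  rw [abs_of_nonneg (by linarith : 0 ≤ (v + s) / 2), abs_of_nonpos (by linarith : (v - s) / 2 ≤ 0)]
  have e1 : (v + s) / 2 - -((v - s) / 2) = v := by ring
  have e2 : (v + s) / 2 + -((v - s) / 2) = s := by ring
  rw [e1, e2]

/-- convexity in `v` -/
theorem ssVv_cv {D : Da} (hR : RCc D.w) (s : ℝ) :
    ConvexOn ℝ (Ioo (-s) s) (fun v => D.g s v) := by
  refine ⟨convex_Ioo _ _, fun x hx y hy α β hα hβ hαβ => ?_⟩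
  have hx' : |x| ≤ s := (abs_lt.2 hx).le
  have hy' : |y| ≤ s := (abs_lt.2 hy).le
  have hz : |α • x + β • y| ≤ s := (abs_lt.2 ((convex_Ioo (-s) s) hx hy hα hβ hαβ)).le
  have h := hR ((((x + s) / 2 : ℝ) : ℂ), (((x - s) / 2 : ℝ) : ℂ))
    ((((y - x) / 2 : ℝ) : ℂ), (((y - x) / 2 : ℝ) : ℂ)) rfl β hβ (by linarith)
  have e1 : ((((x + s) / 2 : ℝ) : ℂ), (((x - s) / 2 : ℝ) : ℂ))
      + ((((y - x) / 2 : ℝ) : ℂ), (((y - x) / 2 : ℝ) : ℂ))
      = ((((y + s) / 2 : ℝ) : ℂ), (((y - s) / 2 : ℝ) : ℂ)) := by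
    rw [Prod.mk_add_mk]
    congr 1 <;> (push_cast; ring)
  have hα' : α = 1 - β := by linarith
  have e2 : ((((x + s) / 2 : ℝ) : ℂ), (((x - s) / 2 : ℝ) : ℂ))
      + β • ((((y - x) / 2 : ℝ) : ℂ), (((y - x) / 2 : ℝ) : ℂ))
      = ((((α • x + β • y + s) / 2 : ℝ) : ℂ), (((α • x + β • y - s) / 2 : ℝ) : ℂ)) := by
    rw [Prod.smul_mk, Prod.mk_add_mk]
    simp only [Complex.real_smul, smul_eq_mul]
    rw [hα']
    congr 1 <;> (push_cast; ring)
  rw [e1, e2, ssVv_diag D hx', ssVv_diag D hy', ssVv_diag D hz] at h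
  simp only [smul_eq_mul] at h ⊢
  rw [hα'] at h ⊢
  exact h

/-- convexity in `s` -/
theorem ssVv_cs {D : Da} (hR : RCc D.w) (v : ℝ) :
    ConvexOn ℝ (Ioi |v|) (fun s => D.g s v) := by
  refine ⟨convex_Ioi _, fun x hx y hy α β hα hβ hαβ => ?_⟩
  have hx' : |v| ≤ x := (mem_Ioi.1 hx).le
  have hy' : |v| ≤ y := (mem_Ioi.1 hy).le
  have hz : |v| ≤ α • x + β • y := (mem_Ioi.1 ((convex_Ioi |v|) hx hy hα hβ hαβ)).le
  have h := hR ((((v + x) / 2 : ℝ) : ℂ), (((v - x) / 2 : ℝ) : ℂ))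
    ((((y - x) / 2 : ℝ) : ℂ), ((-((y - x) / 2) : ℝ) : ℂ))
    (by simp only [Complex.norm_real, Real.norm_eq_abs, abs_neg]) β hβ (by linarith)
  have e1 : ((((v + x) / 2 : ℝ) : ℂ), (((v - x) / 2 : ℝ) : ℂ))
      + ((((y - x) / 2 : ℝ) : ℂ), ((-((y - x) / 2) : ℝ) : ℂ))
      = ((((v + y) / 2 : ℝ) : ℂ), (((v - y) / 2 : ℝ) : ℂ)) := by
    rw [Prod.mk_add_mk]
    congr 1 <;> (push_cast; ring)
  have hα' : α = 1 - β := by linarith
  have e2 : ((((v + x) / 2 : ℝ) : ℂ), (((v - x) / 2 : ℝ) : ℂ))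
      + β • ((((y - x) / 2 : ℝ) : ℂ), ((-((y - x) / 2) : ℝ) : ℂ))
      = ((((v + (α • x + β • y)) / 2 : ℝ) : ℂ), (((v - (α • x + β • y)) / 2 : ℝ) : ℂ)) := by
    rw [Prod.smul_mk, Prod.mk_add_mk]
    simp only [Complex.real_smul, smul_eq_mul]
    rw [hα']
    congr 1 <;> (push_cast; ring)
  rw [e1, e2, ssVv_diag D hx', ssVv_diag D hy', ssVv_diag D hz] at h
  simp only [smul_eq_mul] at h ⊢
  rw [hα'] at h ⊢
  exact h

/-- the second derivative of a convex function -/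
theorem ssVv_second {φ φ' : ℝ → ℝ} {m x0 : ℝ} {I : Set ℝ} (hI : IsOpen I) (hx : x0 ∈ I)
    (hc : ConvexOn ℝ I φ) (h1 : ∀ x, HasDerivAt φ (φ' x) x) (h2 : HasDerivAt φ' m x0) : 0 ≤ m := by
  have h3 := h2.tendsto_slope_zero_right
  refine ge_of_tendsto h3 ?_
  have h4 : ∀ᶠ t in 𝓝[>] (0 : ℝ), x0 + t ∈ I := by
    have h5 : Tendsto (fun t : ℝ => x0 + t) (𝓝 0) (𝓝 (x0 + 0)) := by
      exact (continuous_const.add continuous_id).tendsto 0
    rw [add_zero] at h5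
    exact (h5.mono_left nhdsWithin_le_nhds).eventually (hI.mem_nhds hx)
  filter_upwards [h4, self_mem_nhdsWithin] with t ht ht0
  have ht0' : (0 : ℝ) < t := ht0
  rw [smul_eq_mul]
  refine mul_nonneg (inv_nonneg.2 ht0'.le) ?_
  have hlt : x0 < x0 + t := by linarith
  have h6 := hc.le_slope_of_hasDerivAt hx ht hlt (h1 x0)
  have h7 := hc.slope_le_of_hasDerivAt hx ht hlt (h1 (x0 + t))
  linarith

theorem ssVv_gs {D : Da} (hD : Reg D) (s v : ℝ) : HasDerivAt (fun x => D.g x v) (D.gs s v) s := by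
  have h : HasDerivAt (fun x => D.g x v) (D.a v * 1 + D.h1 s + D.c1 s * v) s :=
    ((((hasDerivAt_id s).const_mul (D.a v)).add_const (D.b v)).add (hD.h1 s)).add
      ((hD.c1 s).mul_const v)
  rw [mul_one] at h
  exact h

theorem ssVv_gss {D : Da} (hD : Reg D) (s v : ℝ) :
    HasDerivAt (fun x => D.gs x v) (D.gss s v) s := by
  have h : HasDerivAt (fun x => D.gs x v) (D.h2 s + D.c2 s * v) s :=
    ((hD.h2 s).const_add (D.a v)).add ((hD.c2 s).mul_const v)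
  exact h

theorem ssVv_gv {D : Da} (hD : Reg D) (s v : ℝ) : HasDerivAt (fun x => D.g s x) (D.gv s v) v := by
  have h : HasDerivAt (fun x => D.g s x) (D.a1 v * s + D.b1 v + D.c s * 1) v :=
    ((((hD.a1 v).mul_const s).add (hD.b1 v)).add_const (D.h s)).add
      ((hasDerivAt_id v).const_mul (D.c s))
  rw [mul_one] at h
  exact h

theorem ssVv_gvv {D : Da} (hD : Reg D) (s v : ℝ) :
    HasDerivAt (fun x => D.gv s x) (D.gvv s v) v := by
  have h : HasDerivAt (fun x => D.gv s x) (D.a2 v * s + D.b2 v) v :=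
    (((hD.a2 v).mul_const s).add (hD.b2 v)).add_const (D.c s)
  exact h

theorem ss_vv {D : Da} (hD : Reg D) (hR : RCc D.w) :
    (∀ s v, |v| ≤ s → 0 < s → 0 ≤ D.gss s v) ∧ (∀ s v, |v| ≤ s → 0 < s → 0 ≤ D.gvv s v) := by
  have A : ∀ s v, |v| < s → 0 ≤ D.gss s v := fun s v h =>
    ssVv_second isOpen_Ioi (mem_Ioi.2 h) (ssVv_cs hR v) (fun x => ssVv_gs hD x v)
      (ssVv_gss hD s v)
  have B : ∀ s v, |v| < s → 0 ≤ D.gvv s v := fun s v h =>
    ssVv_second isOpen_Ioo (abs_lt.1 h) (ssVv_cv hR s) (fun x => ssVv_gv hD s x)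
      (ssVv_gvv hD s v)
  constructor
  · intro s v h hs
    have h1 : Tendsto (fun t : ℝ => D.gss s (t * v)) (𝓝[<] 1) (𝓝 (D.gss s (1 * v))) := by
      have : Continuous fun t : ℝ => D.gss s (t * v) := by
        unfold Da.gss
        fun_prop
      exact (this.tendsto 1).mono_left nhdsWithin_le_nhds
    rw [one_mul] at h1
    refine ge_of_tendsto h1 ?_
    have h2 : Ioo (0 : ℝ) 1 ∈ 𝓝[<] (1 : ℝ) := Ioo_mem_nhdsLT one_pos
    filter_upwards [h2] with t ht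
    apply A
    rw [abs_mul, abs_of_pos ht.1]
    calc t * |v| ≤ t * s := mul_le_mul_of_nonneg_left h ht.1.le
      _ < 1 * s := mul_lt_mul_of_pos_right ht.2 hs
      _ = s := one_mul s
  · intro s v h hs
    have h1 : Tendsto (fun t : ℝ => D.gvv t v) (𝓝[>] s) (𝓝 (D.gvv s v)) := by
      have : Continuous fun t : ℝ => D.gvv t v := by
        unfold Da.gvv
        fun_prop
      exact (this.tendsto s).mono_left nhdsWithin_le_nhds
    refine ge_of_tendsto h1 ?_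
    filter_upwards [self_mem_nhdsWithin] with t ht
    exact B t v (h.trans_lt (mem_Ioi.1 ht))

end Pool.Agent.TH937.FF4
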