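import Pool.Agent.TH937.FF4.Defs

/-! The supporting bilinear functions of the curve lie below the function: the part `s ≤ s0`, `v ≤ v0`. -/

set_option autoImplicit false
namespace Pool.Agent.TH937.FF4
open Set Filter Topology
open Pool.Agent.TH937.ZC (QL RCc)
open scoped ComplexConjugate

theorem Three.tang {f f1 f2 : ℝ → ℝ} (hf : ∀ t, HasDerivAt f (f1 t) t)
    (hf1 : ∀ t, HasDerivAt f1 (f2 t) t) {x p q : ℝ} (hpq : p ≤ q)
    (h : ∀ t, p < t → t < q → f2 t * (x - t) ≤ 0) :
    f q + f1 q * (x - q) ≤ f p + f1 p * (x - p) := by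
  have hd : ∀ t, HasDerivAt (fun t => f t + f1 t * (x - t)) (f2 t * (x - t)) t := by
    intro t
    have h1 := (hf1 t).mul ((hasDerivAt_id t).const_sub x)
    have h2 := (hf t).add h1
    have h3 : HasDerivAt (fun t => f t + f1 t * (x - t)) (f1 t + (f2 t * (x - t) + f1 t * -1)) t := h2
    exact h3.congr_deriv (by ring)
  have hanti : AntitoneOn (fun t => f t + f1 t * (x - t)) (Icc p q) := by
    apply antitoneOn_of_deriv_nonpos (convex_Icc p q)
    · exact fun t _ => (hd t).continuousAt.continuousWithinAt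
    · exact fun t _ => (hd t).differentiableAt.differentiableWithinAt
    · intro t ht
      rw [interior_Icc] at ht
      rw [(hd t).deriv]
      exact h t ht.1 ht.2
  exact hanti (left_mem_Icc.2 hpq) (right_mem_Icc.2 hpq) hpq

/-- the weight -/
noncomputable def Three.rho (s v t : ℝ) : ℝ := (t - (s + v) + s * v / t) / 2

theorem Three.rho_eq {s v t : ℝ} (ht : 0 < t) :
    Three.rho s v t = (t - v) * (t - s) / (2 * t) := by
  unfold Three.rho
  field_simp
  ring

theorem Three.rho_nonneg {s v t : ℝ} (hs : 0 ≤ s) (hst : s ≤ t) (hv : |v| ≤ s) :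
    0 ≤ Three.rho s v t := by
  have hv1 := abs_le.1 hv
  rcases lt_or_eq_of_le (hs.trans hst) with h | h
  · rw [Three.rho_eq h]
    have h1 : 0 ≤ t - v := by linarith
    have h2 : 0 ≤ t - s := by linarith
    positivity
  · have h1 : s = 0 := by linarith
    have h2 : v = 0 := by
      rw [h1] at hv
      exact abs_eq_zero.1 (le_antisymm hv (abs_nonneg v))
    unfold Three.rho
    rw [← h, h1, h2]
    norm_num

theorem Three.psi {D : Da} (hD : Reg D) {s v χ m q : ℝ} (hs : 0 ≤ s) (hv : |v| ≤ s)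
    (hsm : s ≤ m) (hmq : m ≤ q) (hdd : ∀ t, 0 < t → 0 ≤ D.gvv t t)
    (hxi : ∀ t, m ≤ t → t ≤ q → D.a t + D.b1 t - t * D.a1 t + χ ≤ 0) :
    (D.a q * s + D.b q) + (D.a1 q * s + D.b1 q) * (v - q) +
        Three.rho s v q * (D.a q + D.b1 q - q * D.a1 q + χ) ≤
      (D.a m * s + D.b m) + (D.a1 m * s + D.b1 m) * (v - m) := by
  have hv1 := abs_le.1 hv
  have ha : ∀ t, ContinuousAt D.a t := fun t => (hD.a1 t).continuousAt
  have hb : ∀ t, ContinuousAt D.b t := fun t => (hD.b1 t).continuousAt
  have ha1 : ∀ t, ContinuousAt D.a1 t := fun t => (hD.a2 t).continuousAt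
  have hb1 : ∀ t, ContinuousAt D.b1 t := fun t => (hD.b2 t).continuousAt
  have hrc : ContinuousOn (Three.rho s v) (Icc m q) := by
    unfold Three.rho
    rcases lt_or_eq_of_le hs with h | h
    · apply ContinuousOn.div_const
      apply ContinuousOn.add
      · exact continuousOn_id.sub continuousOn_const
      · apply ContinuousOn.div continuousOn_const continuousOn_id
        intro t ht
        have : 0 < t := by linarith [ht.1]
        exact this.ne'
    · rw [← h]
      simp only [zero_mul, zero_div, add_zero, zero_add]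
      exact (continuousOn_id.sub continuousOn_const).div_const _
  have hd : ∀ t, 0 < t → HasDerivAt (fun t => (D.a t * s + D.b t) +
      (D.a1 t * s + D.b1 t) * (v - t) + Three.rho s v t * (D.a t + D.b1 t - t * D.a1 t + χ))
      ((D.a2 t * s + D.b2 t) * (v - t) + (1 - s * v / t ^ 2) / 2 *
        (D.a t + D.b1 t - t * D.a1 t + χ) + Three.rho s v t * (D.b2 t - t * D.a2 t)) t := by
    intro t ht
    have h1 : HasDerivAt (Three.rho s v) ((1 - s * v / t ^ 2) / 2) t := by
      unfold Three.rho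
      have h2 := (((hasDerivAt_id t).sub_const (s + v)).add
        ((hasDerivAt_const t (s * v)).div (hasDerivAt_id t) ht.ne')).div_const 2
      have h3 : HasDerivAt (fun t => (t - (s + v) + s * v / t) / 2)
          ((1 + (0 * t - s * v * 1) / t ^ 2) / 2) t := h2
      exact h3.congr_deriv (by ring)
    have h3 := ((hD.a1 t).mul_const s).add (hD.b1 t)
    have h4 := (((hD.a2 t).mul_const s).add (hD.b2 t)).mul ((hasDerivAt_id t).const_sub v)
    have h5 := (((hD.a1 t).add (hD.b2 t)).sub ((hasDerivAt_id t).mul (hD.a2 t))).add_const χ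
    have h6 := (h3.add h4).add (h1.mul h5)
    have h7 : HasDerivAt (fun t => (D.a t * s + D.b t) +
      (D.a1 t * s + D.b1 t) * (v - t) + Three.rho s v t * (D.a t + D.b1 t - t * D.a1 t + χ))
      (D.a1 t * s + D.b1 t + ((D.a2 t * s + D.b2 t) * (v - t) + (D.a1 t * s + D.b1 t) * -1) +
        ((1 - s * v / t ^ 2) / 2 * (D.a t + D.b1 t - t * D.a1 t + χ) +
          Three.rho s v t * (D.a1 t + D.b2 t - (1 * D.a1 t + t * D.a2 t)))) t := h6
    exact h7.congr_deriv (by ring)
  have hanti : AntitoneOn (fun t => (D.a t * s + D.b t) +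
      (D.a1 t * s + D.b1 t) * (v - t) + Three.rho s v t * (D.a t + D.b1 t - t * D.a1 t + χ))
      (Icc m q) := by
    apply antitoneOn_of_deriv_nonpos (convex_Icc m q)
    · intro t ht
      apply ContinuousWithinAt.add
      · exact ((((ha t).mul continuousAt_const).add (hb t)).add
          ((((ha1 t).mul continuousAt_const).add (hb1 t)).mul
            (continuousAt_const.sub continuousAt_id))).continuousWithinAt
      · exact (hrc t ht).mul (((((ha t).add (hb1 t)).sub (continuousAt_id.mul (ha1 t))).add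
          continuousAt_const).continuousWithinAt)
    · intro t ht
      rw [interior_Icc] at ht
      exact (hd t (by linarith [ht.1])).differentiableAt.differentiableWithinAt
    · intro t ht
      rw [interior_Icc] at ht
      have ht0 : 0 < t := by linarith [ht.1]
      rw [(hd t ht0).deriv]
      have e1 : (D.a2 t * s + D.b2 t) * (v - t) + Three.rho s v t * (D.b2 t - t * D.a2 t) =
          -(D.gvv t t * ((t + s) * (t - v) / (2 * t))) := by
        rw [Three.rho_eq ht0]
        unfold Da.gvv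
        field_simp
        ring
      have h1 : 0 ≤ D.gvv t t * ((t + s) * (t - v) / (2 * t)) := by
        apply mul_nonneg (hdd t ht0)
        have h2 : 0 ≤ t - v := by linarith [ht.1]
        positivity
      have h3 : 0 ≤ (1 - s * v / t ^ 2) / 2 := by
        have h4 : s * v / t ^ 2 ≤ 1 := by
          rw [div_le_one (by positivity)]
          nlinarith [ht.1]
        linarith
      have h5 := mul_nonpos_of_nonneg_of_nonpos h3 (hxi t ht.1.le ht.2.le)
      linarith
  have h1 := hanti (left_mem_Icc.2 hmq) (right_mem_Icc.2 hmq) hmq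
  try simp only at h1
  have h2 := mul_nonpos_of_nonneg_of_nonpos (Three.rho_nonneg hs hsm hv) (hxi m le_rfl hmq)
  linarith

theorem Three.key {D : Da} {η : ℝ} (hD : Reg D) (hc : Cn D η) (hη : 0 ≤ η) {s0 v0 r : ℝ}
    (h0 : 0 < v0) (hv : v0 < s0) (hr : 0 ≤ r)
    (hX : ∀ v, r ≤ v → v ≤ v0 → r < v0 → D.X s0 v ≤ 0) {s v m : ℝ} (h1 : |v| ≤ s) (h2 : s ≤ s0)
    (h3 : v ≤ v0) (hvm : v ≤ m) (hrm : r ≤ m) (hm0 : m ≤ v0) :
    (D.a v0 * s + D.b v0) + (D.a1 v0 * s + D.b1 v0) * (v - v0) +
        min (D.X s0 v0) 0 / (s0 + v0) * ((s - s0) * (v - v0)) ≤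
      (D.a m * s + D.b m) + (D.a1 m * s + D.b1 m) * (v - m) := by
  have hs : 0 ≤ s := (abs_nonneg v).trans h1
  have hpos : 0 < s0 + v0 := by linarith
  have hprod : 0 ≤ (s - s0) * (v - v0) := by nlinarith
  have hk : min (D.X s0 v0) 0 / (s0 + v0) * ((s - s0) * (v - v0)) ≤ 0 := by
    apply mul_nonpos_of_nonpos_of_nonneg _ hprod
    exact div_nonpos_of_nonpos_of_nonneg (min_le_right _ _) hpos.le
  have hf : ∀ t, HasDerivAt (fun t => D.a t * s + D.b t) (D.a1 t * s + D.b1 t) t :=
    fun t => ((hD.a1 t).mul_const s).add (hD.b1 t)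
  have hf1 : ∀ t, HasDerivAt (fun t => D.a1 t * s + D.b1 t) (D.a2 t * s + D.b2 t) t :=
    fun t => ((hD.a2 t).mul_const s).add (hD.b2 t)
  rcases le_or_gt v0 s with hA | hB
  · have h4 := Three.tang hf hf1 (x := v) hm0 (fun t ht1 ht2 => by
      have h5 : 0 ≤ D.gvv s t := hη.trans (hc.vv s t (by rw [abs_of_nonneg] <;> linarith)
        (by linarith))
      exact mul_nonpos_of_nonneg_of_nonpos h5 (by linarith))
    try simp only at h4
    linarith
  · rcases lt_or_eq_of_le hm0 with hlt | heq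
    · have hrv : r < v0 := lt_of_le_of_lt hrm hlt
      have hX0 : D.X s0 v0 ≤ 0 := hX v0 hrv.le le_rfl hrv
      have hm' : max m s ≤ v0 := max_le hm0 hB.le
      have h4 := Three.tang hf hf1 (x := v) (le_max_left m s) (fun t ht1 ht2 => by
        have hts : t < s := by
          rcases lt_max_iff.1 ht2 with h | h
          · linarith
          · exact h
        have h5 : 0 ≤ D.gvv s t := hη.trans (hc.vv s t (by rw [abs_of_nonneg] <;> linarith)
          (by linarith))
        exact mul_nonpos_of_nonneg_of_nonpos h5 (by linarith))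
      try simp only at h4
      have h5 := Three.psi hD (χ := D.h1 s0 + D.c s0 - s0 * D.c1 s0) hs h1 (le_max_right m s) hm'
        (fun t ht => hη.trans (hc.vv t t (by rw [abs_of_pos ht]) ht))
        (fun t ht1 ht2 => by
          have h6 := hX t (hrm.trans ((le_max_left m s).trans ht1)) ht2 hrv
          unfold Da.X Da.gs Da.gv Da.gsv at h6
          linarith)
      have e1 : D.a v0 + D.b1 v0 - v0 * D.a1 v0 + (D.h1 s0 + D.c s0 - s0 * D.c1 s0) =
          D.X s0 v0 := by
        unfold Da.X Da.gs Da.gv Da.gsv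
        ring
      rw [e1, Three.rho_eq h0] at h5
      rw [min_eq_left hX0]
      have h6 : (v0 - s) / (2 * v0) ≤ (s0 - s) / (s0 + v0) := by
        rw [div_le_div_iff₀ (by positivity) hpos]
        nlinarith [mul_nonneg (by linarith : 0 ≤ s0 - v0) (by linarith : 0 ≤ v0 + s)]
      have h7 : 0 ≤ -(D.X s0 v0) * (v0 - v) := mul_nonneg (by linarith) (by linarith)
      have h8 := mul_le_mul_of_nonneg_left h6 h7
      have e2 : (v0 - v) * (v0 - s) / (2 * v0) * D.X s0 v0 =
          -(-(D.X s0 v0) * (v0 - v) * ((v0 - s) / (2 * v0))) := by ring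
      have e3 : D.X s0 v0 / (s0 + v0) * ((s - s0) * (v - v0)) =
          -(-(D.X s0 v0) * (v0 - v) * ((s0 - s) / (s0 + v0))) := by ring
      rw [e2] at h5
      rw [e3]
      linarith
    · rw [heq]
      linarith

theorem three {D : Da} {η : ℝ} (hD : Reg D) (hc : Cn D η) (hη : 0 ≤ η) {s0 v0 r : ℝ}
    (h0 : 0 < v0) (hv : v0 < s0) (hr : 0 ≤ r) (hrv : r ≤ v0)
    (hX : ∀ v, r ≤ v → v ≤ v0 → r < v0 → D.X s0 v ≤ 0) {s v : ℝ} (h1 : |v| ≤ s) (h2 : s ≤ s0)
    (h3 : v ≤ v0) :
    (r ≤ v → D.lt s0 v0 s v ≤ D.g s v) ∧ (v ≤ r → D.lt s0 v0 s v ≤ D.low r s v) := by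
  have hN : D.h s0 + D.c s0 * v + (D.h1 s0 + D.c1 s0 * v) * (s - s0) ≤
      D.h s + D.c s * v + (D.h1 s + D.c1 s * v) * (s - s) := by
    refine Three.tang (f := fun t => D.h t + D.c t * v) (f1 := fun t => D.h1 t + D.c1 t * v)
      (f2 := fun t => D.h2 t + D.c2 t * v)
      (fun t => (hD.h1 t).add ((hD.c1 t).mul_const v))
      (fun t => (hD.h2 t).add ((hD.c2 t).mul_const v)) h2 (fun t ht1 ht2 => ?_)
    have h4 : 0 ≤ D.gss t v := hc.ss t v (h1.trans ht1.le)
      (lt_of_le_of_lt ((abs_nonneg v).trans h1) ht1)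
    exact mul_nonpos_of_nonneg_of_nonpos h4 (by linarith)
  rw [sub_self, mul_zero, add_zero] at hN
  have e : D.lt s0 v0 s v = ((D.a v0 * s + D.b v0) + (D.a1 v0 * s + D.b1 v0) * (v - v0) +
      min (D.X s0 v0) 0 / (s0 + v0) * ((s - s0) * (v - v0))) +
      (D.h s0 + D.c s0 * v + (D.h1 s0 + D.c1 s0 * v) * (s - s0)) := by
    unfold Da.lt Da.kk Da.g Da.gs Da.gv Da.gsv
    ring
  rw [e]
  constructor
  · intro hrv'
    have h4 := Three.key hD hc hη h0 hv hr hX h1 h2 h3 (le_refl v) hrv' h3
    rw [sub_self, mul_zero, add_zero] at h4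
    unfold Da.g
    linarith
  · intro hvr
    have h4 := Three.key hD hc hη h0 hv hr hX h1 h2 h3 hvr (le_refl r) hrv
    have e2 : D.low r s v = (D.a r * s + D.b r) + (D.a1 r * s + D.b1 r) * (v - r) +
        (D.h s + D.c s * v) := by
      unfold Da.low
      ring
    rw [e2]
    linarith

end Pool.Agent.TH937.FF4
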