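import Pool.Agent.TH937.FF4.Defs

/-!
The supporting inequality along a rank-one line (job 5294, second copy by helper554).
-/

set_option autoImplicit false

namespace Pool.Agent.TH937.FF4

open Set Filter Topology
open Pool.Agent.TH937.ZC (QL RCc)
open scoped ComplexConjugate

/-- derivative of `t ↦ g (P t + Q t) (P t - Q t)` -/
theorem tl_der {D : Da} (hD : Reg D) {P Q : ℝ → ℝ} {P' Q' p0 q0 : ℝ} 
    (hP0 : P 0 = p0) (hQ0 : Q 0 = q0) (hP : HasDerivAt P P' 0) (hQ : HasDerivAt Q Q' 0) :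
    HasDerivAt (fun t => D.g (P t + Q t) (P t - Q t))
      ((D.gs (p0 + q0) (p0 - q0) + D.gv (p0 + q0) (p0 - q0)) * P'
        + (D.gs (p0 + q0) (p0 - q0) - D.gv (p0 + q0) (p0 - q0)) * Q') 0 := by
  have hS : HasDerivAt (fun t => P t + Q t) (P' + Q') 0 := hP.add hQ
  have hV : HasDerivAt (fun t => P t - Q t) (P' - Q') 0 := hP.sub hQ
  have s0 : P 0 + Q 0 = p0 + q0 := by rw [hP0, hQ0]
  have v0 : P 0 - Q 0 = p0 - q0 := by rw [hP0, hQ0]
  have ha := HasDerivAt.comp (0 : ℝ) (h₂ := D.a) (h := fun t => P t - Q t)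
    (by rw [v0]; exact hD.a1 (p0 - q0)) hV
  have hb := HasDerivAt.comp (0 : ℝ) (h₂ := D.b) (h := fun t => P t - Q t)
    (by rw [v0]; exact hD.b1 (p0 - q0)) hV
  have hh := HasDerivAt.comp (0 : ℝ) (h₂ := D.h) (h := fun t => P t + Q t)
    (by rw [s0]; exact hD.h1 (p0 + q0)) hS
  have hc := HasDerivAt.comp (0 : ℝ) (h₂ := D.c) (h := fun t => P t + Q t)
    (by rw [s0]; exact hD.c1 (p0 + q0)) hS
  have := ((ha.mul hS).add hb).add hh |>.add (hc.mul hV)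
  refine HasDerivAt.congr_deriv this ?_
  simp only [Function.comp, s0, v0, Da.gs, Da.gv]
  ring

/-- a supporting inequality from convexity along a segment -/
theorem tl_slope {φ : ℝ → ℝ} {d : ℝ} (h : HasDerivAt φ d 0)
    (hc : ∀ t, 0 ≤ t → t ≤ 1 → φ t ≤ (1 - t) * φ 0 + t * φ 1) : φ 0 + d ≤ φ 1 := by
  have h1 : Tendsto (fun t : ℝ => t⁻¹ • (φ (0 + t) - φ 0)) (𝓝[≠] 0) (𝓝 d) :=
    hasDerivAt_iff_tendsto_slope_zero.1 h
  have h2 : Tendsto (fun t : ℝ => t⁻¹ • (φ (0 + t) - φ 0)) (𝓝[>] 0) (𝓝 d) :=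
    h1.mono_left (nhdsWithin_mono _ (fun x hx => ne_of_gt hx))
  have h3 : ∀ᶠ t : ℝ in 𝓝[>] 0, t⁻¹ • (φ (0 + t) - φ 0) ≤ φ 1 - φ 0 := by
    filter_upwards [Ioo_mem_nhdsGT (show (0 : ℝ) < 1 by norm_num)] with t ht
    have := hc t ht.1.le ht.2.le
    rw [smul_eq_mul, zero_add, inv_mul_le_iff₀ ht.1]
    nlinarith
  have := le_of_tendsto h2 h3
  linarith

theorem tl {D : Da} (hD : Reg D) (hR : RCc D.w) {p0 q0 p q : ℝ} (h1 : 0 < p0) (h2 : 0 < q0)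
    (h3 : 0 ≤ p) (h4 : 0 ≤ q) (h5 : |p - p0| ≤ |q - q0|) (h6 : |q - q0| ≤ p + p0) :
    D.g (p0 + q0) (p0 - q0)
      + (D.gs (p0 + q0) (p0 - q0) + D.gv (p0 + q0) (p0 - q0))
        * ((p ^ 2 - p0 ^ 2 - (q - q0) ^ 2) / (2 * p0))
      + (D.gs (p0 + q0) (p0 - q0) - D.gv (p0 + q0) (p0 - q0)) * (q - q0) ≤ D.g (p + q) (p - q) := by
  have hp0 : 0 < p0 := h1
  set x : ℝ := (p ^ 2 + p0 ^ 2 - (q - q0) ^ 2) / (2 * p0) with hx
  have hxp : 2 * p0 * x = p ^ 2 + p0 ^ 2 - (q - q0) ^ 2 := by rw [hx]; field_simp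
  -- |x| ≤ p
  have hA : (p - p0) ^ 2 ≤ (q - q0) ^ 2 := sq_le_sq.2 h5
  have hB : (q - q0) ^ 2 ≤ (p + p0) ^ 2 := by
    apply sq_le_sq.2
    rwa [abs_of_nonneg (show (0 : ℝ) ≤ p + p0 by linarith)]
  have hx1 : x ≤ p := by
    have : 2 * p0 * x ≤ 2 * p0 * p := by rw [hxp]; nlinarith
    exact le_of_mul_le_mul_left this (by linarith)
  have hx2 : -p ≤ x := by
    have : 2 * p0 * (-p) ≤ 2 * p0 * x := by rw [hxp]; nlinarith
    exact le_of_mul_le_mul_left this (by linarith)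
  have hx3 : 0 ≤ p ^ 2 - x ^ 2 := by nlinarith
  set y : ℝ := Real.sqrt (p ^ 2 - x ^ 2) with hy
  have hy2 : y ^ 2 = p ^ 2 - x ^ 2 := Real.sq_sqrt hx3
  -- the two points
  let H : ℂ × ℂ := (⟨x - p0, y⟩, ((q - q0 : ℝ) : ℂ))
  let F : ℂ × ℂ := ((p0 : ℂ), (q0 : ℂ))
  have hH : ‖H.1‖ = ‖H.2‖ := by
    have e1 : ‖H.1‖ ^ 2 = (q - q0) ^ 2 := by
      rw [← Complex.normSq_eq_norm_sq]
      simp only [H, Complex.normSq_mk]
      nlinarith
    have e2 : ‖H.2‖ = |q - q0| := by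
      simp only [H]
      rw [Complex.norm_real, Real.norm_eq_abs]
    rw [e2]
    have e3 : ‖H.1‖ ^ 2 = |q - q0| ^ 2 := by rw [e1, sq_abs]
    exact (pow_left_inj₀ (norm_nonneg _) (abs_nonneg _) two_ne_zero).1 e3
  have hP : ∀ t : ℝ, ‖(F + t • H).1‖ = Real.sqrt ((p0 + t * (x - p0)) ^ 2 + (t * y) ^ 2) := by
    intro t
    have : (F + t • H).1 = ⟨p0 + t * (x - p0), t * y⟩ := by
      apply Complex.ext
      · simp [F, H]
      · simp [F, H]
    rw [this, Complex.norm_def, Complex.normSq_mk]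
    congr 1; ring
  have hQ : ∀ t : ℝ, ‖(F + t • H).2‖ = |q0 + t * (q - q0)| := by
    intro t
    have : (F + t • H).2 = ((q0 + t * (q - q0) : ℝ) : ℂ) := by
      simp [F, H]
    rw [this, Complex.norm_real, Real.norm_eq_abs]
  let P : ℝ → ℝ := fun t => Real.sqrt ((p0 + t * (x - p0)) ^ 2 + (t * y) ^ 2)
  let Qf : ℝ → ℝ := fun t => |q0 + t * (q - q0)|
  have hP0 : P 0 = p0 := by
    simp only [P]
    rw [show (p0 + 0 * (x - p0)) ^ 2 + (0 * y) ^ 2 = p0 ^ 2 by ring]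
    exact Real.sqrt_sq hp0.le
  have hQ0 : Qf 0 = q0 := by
    simp only [Qf]
    rw [zero_mul, add_zero, abs_of_pos h2]
  have hPd : HasDerivAt P (x - p0) 0 := by
    have i1 : HasDerivAt (fun t : ℝ => (p0 + t * (x - p0)) ^ 2 + (t * y) ^ 2) (2 * p0 * (x - p0)) 0 := by
      have j1 : HasDerivAt (fun t : ℝ => p0 + t * (x - p0)) (1 * (x - p0)) 0 :=
        ((hasDerivAt_id (0 : ℝ)).mul_const (x - p0)).const_add p0
      have j2 : HasDerivAt (fun t : ℝ => t * y) (1 * y) 0 := (hasDerivAt_id (0 : ℝ)).mul_const y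
      refine ((j1.pow 2).add (j2.pow 2)).congr_deriv ?_
      simp
    have i2 := i1.sqrt (by
      rw [show (p0 + 0 * (x - p0)) ^ 2 + (0 * y) ^ 2 = p0 ^ 2 by ring]; positivity)
    refine i2.congr_deriv ?_
    rw [show (p0 + 0 * (x - p0)) ^ 2 + (0 * y) ^ 2 = p0 ^ 2 by ring, Real.sqrt_sq hp0.le]
    field_simp
  have hQd : HasDerivAt Qf (q - q0) 0 := by
    have j1 : HasDerivAt (fun t : ℝ => q0 + t * (q - q0)) (1 * (q - q0)) 0 :=
      ((hasDerivAt_id (0 : ℝ)).mul_const (q - q0)).const_add q0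
    rw [one_mul] at j1
    refine j1.congr_of_eventuallyEq ?_
    have : ∀ᶠ t : ℝ in 𝓝 0, 0 < q0 + t * (q - q0) :=
      j1.continuousAt.eventually (lt_mem_nhds (by simpa using h2))
    filter_upwards [this] with t ht
    exact abs_of_pos ht
  have hφ : ∀ t : ℝ, D.w (F + t • H) = D.g (P t + Qf t) (P t - Qf t) := by
    intro t
    simp only [Da.w]
    rw [hP t, hQ t]
  have hd := tl_der hD hP0 hQ0 hPd hQd
  have hP1 : P 1 = p := by
    simp only [P]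
    rw [show (p0 + 1 * (x - p0)) ^ 2 + (1 * y) ^ 2 = p ^ 2 by nlinarith [hy2]]
    exact Real.sqrt_sq h3
  have hQ1 : Qf 1 = q := by
    simp only [Qf]
    rw [show q0 + 1 * (q - q0) = q by ring, abs_of_nonneg h4]
  have hs := tl_slope (φ := fun t => D.g (P t + Qf t) (P t - Qf t)) hd (by
    intro t ht0 ht1
    have := hR F H hH t ht0 ht1
    have e0 : D.w F = D.g (P 0 + Qf 0) (P 0 - Qf 0) := by
      rw [← hφ 0]; simp
    have e1 : D.w (F + H) = D.g (P 1 + Qf 1) (P 1 - Qf 1) := by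
      rw [← hφ 1]; simp
    rw [hφ t, e0, e1] at this
    exact this)
  simp only [hP0, hQ0, hP1, hQ1] at hs
  have hxx : x - p0 = (p ^ 2 - p0 ^ 2 - (q - q0) ^ 2) / (2 * p0) := by
    rw [hx]; field_simp; ring
  rw [hxx] at hs
  linarith

end Pool.Agent.TH937.FF4
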