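import Pool.Agent.TH937.FF4.Defs
set_option autoImplicit false
namespace Pool.Agent.TH937.FF4
open Set Filter Topology
open Pool.Agent.TH937.ZC (QL RCc)
open scoped ComplexConjugate

private theorem two_tan {f f1 f2 : ℝ → ℝ} (h1 : ∀ x, HasDerivAt f (f1 x) x)
    (h2 : ∀ x, HasDerivAt f1 (f2 x) x) {x y : ℝ} (hxy : x ≤ y)
    (hp : ∀ t, x ≤ t → t ≤ y → 0 ≤ f2 t) :
    f y + f1 y * (x - y) ≤ f x ∧ f x + f1 x * (y - x) ≤ f y := by
  rcases hxy.eq_or_lt with rfl | hlt
  · simp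
  have hm : MonotoneOn f1 (Icc x y) := by
    refine monotoneOn_of_deriv_nonneg (convex_Icc x y)
      (fun t _ => (h2 t).continuousAt.continuousWithinAt)
      (fun t _ => (h2 t).differentiableAt.differentiableWithinAt) ?_
    intro t ht
    rw [interior_Icc] at ht
    rw [(h2 t).deriv]
    exact hp t ht.1.le ht.2.le
  obtain ⟨c, hc, he⟩ := exists_hasDerivAt_eq_slope f f1 hlt
    (fun t _ => (h1 t).continuousAt.continuousWithinAt) (fun t _ => h1 t)
  have hd : 0 < y - x := sub_pos.2 hlt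
  have he' : f y - f x = f1 c * (y - x) := by
    rw [he]
    field_simp
  have hx : f1 x ≤ f1 c := hm ⟨le_refl _, hxy⟩ ⟨hc.1.le, hc.2.le⟩ hc.1.le
  have hy : f1 c ≤ f1 y := hm ⟨hc.1.le, hc.2.le⟩ ⟨hxy, le_refl _⟩ hc.2.le
  constructor
  · nlinarith [mul_le_mul_of_nonneg_right hy hd.le]
  · nlinarith [mul_le_mul_of_nonneg_right hx hd.le]

theorem two {D : Da} {η : ℝ} (hD : Reg D) (hc : Cn D η) (hη : 0 ≤ η) {s0 v0 : ℝ} (h0 : 0 < v0)
    (hv : v0 < s0) {s v : ℝ} (h1 : v0 ≤ v) (h2 : v ≤ s) (h3 : s ≤ s0) :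
    D.lt s0 v0 s v ≤ D.g s v := by
  have hv0 : 0 < v := h0.trans_le h1
  have hs0 : 0 < s := hv0.trans_le h2
  rcases le_or_gt 0 (D.X s0 v0) with hX | hX
  · have hk : D.kk s0 v0 = D.gsv s0 v0 := by
      simp [Da.kk, min_eq_right hX]
    -- the tangent in `s`
    have e1 := (two_tan (f := fun t => D.h t + D.c t * v) (f1 := fun t => D.h1 t + D.c1 t * v)
      (f2 := fun t => D.h2 t + D.c2 t * v)
      (fun t => (hD.h1 t).add ((hD.c1 t).mul_const v))
      (fun t => (hD.h2 t).add ((hD.c2 t).mul_const v)) h3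
      (fun t ht1 ht2 => hc.ss t v (by rw [abs_of_pos hv0]; linarith) (by linarith))).1
    have e2 := (two_tan (f := fun t => D.a t * s + D.b t) (f1 := fun t => D.a1 t * s + D.b1 t)
      (f2 := fun t => D.a2 t * s + D.b2 t)
      (fun t => ((hD.a1 t).mul_const s).add (hD.b1 t))
      (fun t => ((hD.a2 t).mul_const s).add (hD.b2 t)) h1
      (fun t ht1 ht2 => hη.trans (hc.vv s t (by rw [abs_of_pos (by linarith)]; linarith) hs0))).2
    have hid : D.lt s0 v0 s v =
        (D.h s0 + D.c s0 * v + (D.h1 s0 + D.c1 s0 * v) * (s - s0))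
        + (D.a v0 * s + D.b v0 + (D.a1 v0 * s + D.b1 v0) * (v - v0)) := by
      simp only [Da.lt, hk, Da.g, Da.gs, Da.gv, Da.gsv]
      ring
    rw [hid]
    have hg : D.g s v = (D.h s + D.c s * v) + (D.a v * s + D.b v) := by
      simp only [Da.g]; ring
    rw [hg]
    exact add_le_add e1 e2
  · have hsum : 0 < s0 + v0 := by linarith
    have hk : D.kk s0 v0 = (D.gs s0 v0 + D.gv s0 v0) / (s0 + v0) := by
      rw [Da.kk, min_eq_left hX.le, Da.X]
      field_simp
      ring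
    have hp0 : (0 : ℝ) < (s0 + v0) / 2 := by linarith
    have hq0 : (0 : ℝ) < (s0 - v0) / 2 := by linarith
    have hqq : |(s - v) / 2 - (s0 - v0) / 2| = (s0 - v0) / 2 - (s - v) / 2 := by
      rw [abs_of_nonpos (by linarith)]; ring
    have ht := hc.tl ((s0 + v0) / 2) ((s0 - v0) / 2) ((s + v) / 2) ((s - v) / 2) hp0 hq0
      (by linarith) (by linarith)
      (by rw [hqq, abs_le]; constructor <;> linarith)
      (by rw [hqq]; linarith)
    have r1 : (s0 + v0) / 2 + (s0 - v0) / 2 = s0 := by ring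
    have r2 : (s0 + v0) / 2 - (s0 - v0) / 2 = v0 := by ring
    have r3 : (s + v) / 2 + (s - v) / 2 = s := by ring
    have r4 : (s + v) / 2 - (s - v) / 2 = v := by ring
    rw [r1, r2, r3, r4] at ht
    refine le_trans (le_of_eq ?_) ht
    simp only [Da.lt, hk]
    field_simp
    ring

end Pool.Agent.TH937.FF4
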