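import Pool.Agent.TH937.FF4.Defs

/-!
# FF4: the function lies above its tangent in `v`
-/

set_option autoImplicit false

namespace Pool.Agent.TH937.FF4

open Set Filter Topology
open Pool.Agent.TH937.ZC (QL RCc)
open scoped ComplexConjugate

/-- a function with nonnegative second derivative lies above its tangents -/
theorem up_tang {φ φ1 φ2 : ℝ → ℝ} {A B : ℝ} (h1 : ∀ x, HasDerivAt φ (φ1 x) x)
    (h2 : ∀ x, HasDerivAt φ1 (φ2 x) x) (h : ∀ x ∈ Icc A B, 0 ≤ φ2 x) :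
    MonotoneOn φ1 (Icc A B) ∧
      ∀ x ∈ Icc A B, ∀ y ∈ Icc A B, φ x + φ1 x * (y - x) ≤ φ y := by
  have hm : MonotoneOn φ1 (Icc A B) := by
    apply monotoneOn_of_deriv_nonneg (convex_Icc A B)
    · exact fun x _ => (h2 x).continuousAt.continuousWithinAt
    · exact fun x _ => (h2 x).differentiableAt.differentiableWithinAt
    · intro x hx
      rw [(h2 x).deriv]
      exact h x (interior_subset hx)
  refine ⟨hm, fun x hx y hy => ?_⟩
  rcases lt_trichotomy x y with hxy | hxy | hxy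
  · obtain ⟨ξ, hξ, he⟩ := exists_hasDerivAt_eq_slope φ φ1 hxy
      (fun z _ => (h1 z).continuousAt.continuousWithinAt) (fun z _ => h1 z)
    have hξ' : ξ ∈ Icc A B := ⟨hx.1.trans hξ.1.le, hξ.2.le.trans hy.2⟩
    have := hm hx hξ' hξ.1.le
    rw [he, le_div_iff₀ (sub_pos.2 hxy)] at this
    linarith
  · subst hxy; simp
  · obtain ⟨ξ, hξ, he⟩ := exists_hasDerivAt_eq_slope φ φ1 hxy
      (fun z _ => (h1 z).continuousAt.continuousWithinAt) (fun z _ => h1 z)
    have hξ' : ξ ∈ Icc A B := ⟨hy.1.trans hξ.1.le, hξ.2.le.trans hx.2⟩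
    have := hm hξ' hx hξ.2.le
    rw [he, div_le_iff₀ (sub_pos.2 hxy)] at this
    linarith

theorem up {D : Da} {η : ℝ} (hD : Reg D) (hc : Cn D η) (hη : 0 ≤ η) {r u s : ℝ} (hr : 0 ≤ r)
    (hru : r ≤ u) (hus : u < s) {v : ℝ} (hvs : |v| ≤ s) :
    (r ≤ v → D.g s u + D.gv s u * (v - u) ≤ D.g s v) ∧
    (v ≤ r → D.g s u + D.gv s u * (v - u) ≤ D.low r s v) := by
  have hs : 0 < s := by linarith
  have hv := abs_le.1 hvs
  obtain ⟨hm, ht⟩ := up_tang (φ := fun x => D.a x * s + D.b x) (φ1 := fun x => D.a1 x * s + D.b1 x)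
    (φ2 := fun x => D.a2 x * s + D.b2 x) (A := -s) (B := s)
    (fun x => ((hD.a1 x).mul_const s).add (hD.b1 x))
    (fun x => ((hD.a2 x).mul_const s).add (hD.b2 x))
    (fun x hx => hη.trans (hc.vv s x (abs_le.2 hx) hs))
  have hu' : u ∈ Icc (-s) s := ⟨by linarith, hus.le⟩
  have hr' : r ∈ Icc (-s) s := ⟨by linarith, by linarith⟩
  have h1 := ht u hu' v hv
  have h2 := ht u hu' r hr'
  have h3 := hm hr' hu' hru
  simp only at h1 h2 h3
  refine ⟨fun _ => ?_, fun hvr => ?_⟩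
  · simp only [Da.g, Da.gv]
    linarith
  · simp only [Da.g, Da.gv, Da.low]
    have h4 := mul_le_mul_of_nonneg_right h3 (sub_nonneg.2 hvr)
    nlinarith

end Pool.Agent.TH937.FF4
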