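import Pool.Agent.TH937.FF4.Defs

/-!
# FF4: `X ≥ 0` for `v ≤ 0` and `Y ≥ 0` for `v ≥ 0`
-/

set_option autoImplicit false

namespace Pool.Agent.TH937.FF4

open Set Filter Topology
open Pool.Agent.TH937.ZC (QL RCc)
open scoped ComplexConjugate

theorem Xy_dgs {D : Da} (hD : Reg D) (s v : ℝ) : HasDerivAt (fun s => D.g s v) (D.gs s v) s := by
  have h := ((((hasDerivAt_id s).const_mul (D.a v)).add_const (D.b v)).add (hD.h1 s)).add
    ((hD.c1 s).mul_const v)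
  refine h.congr_deriv ?_
  unfold Da.gs
  ring

theorem Xy_dgv {D : Da} (hD : Reg D) (s v : ℝ) : HasDerivAt (fun v => D.g s v) (D.gv s v) v := by
  have h := (((((hD.a1 v).mul_const s).add (hD.b1 v)).add_const (D.h s))).add
    ((hasDerivAt_id v).const_mul (D.c s))
  refine h.congr_deriv ?_
  unfold Da.gv
  ring

theorem Xy_dX {D : Da} (hD : Reg D) (s v : ℝ) :
    HasDerivAt (fun s => D.X s v) (D.gss s (-s)) s := by
  have e1 : HasDerivAt (fun s => D.gs s v) (D.h2 s + D.c2 s * v) s := by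
    have h := ((hD.h2 s).const_add (D.a v)).add ((hD.c2 s).mul_const v)
    exact h
  have e2 : HasDerivAt (fun s => D.gv s v) (D.gsv s v) s := by
    have h := (((hasDerivAt_id s).const_mul (D.a1 v)).add_const (D.b1 v)).add (hD.c1 s)
    refine h.congr_deriv ?_
    unfold Da.gsv
    ring
  have e3 : HasDerivAt (fun s => D.gsv s v) (D.c2 s) s := (hD.c2 s).const_add (D.a1 v)
  have e4 : HasDerivAt (fun s : ℝ => s + v) 1 s := (hasDerivAt_id s).add_const v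
  have h := (e1.add e2).sub (e4.mul e3)
  refine h.congr_deriv ?_
  unfold Da.gss
  ring

theorem Xy_w (D : Da) (p q : ℝ) : D.w ((p : ℂ), (q : ℂ)) = D.g (|p| + |q|) (|p| - |q|) := by
  unfold Da.w
  rw [Complex.norm_real, Complex.norm_real, Real.norm_eq_abs, Real.norm_eq_abs]

theorem Xy_mid {D : Da} (hR : RCc D.w) {r τ : ℝ} (hτ : 0 < τ) (hτr : τ ≤ r) :
    0 ≤ D.g r (-r + 2 * τ) + D.g (r + 2 * τ) (-r) - 2 * D.g r (-r) := by
  have h := hR (((-τ : ℝ) : ℂ), ((r - τ : ℝ) : ℂ)) (((2 * τ : ℝ) : ℂ), ((2 * τ : ℝ) : ℂ)) rfl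
    (1 / 2) (by norm_num) (by norm_num)
  have e1 : ((((-τ : ℝ) : ℂ), ((r - τ : ℝ) : ℂ)) : ℂ × ℂ) + (1 / 2 : ℝ) •
      ((((2 * τ : ℝ) : ℂ), ((2 * τ : ℝ) : ℂ)) : ℂ × ℂ) = (((0 : ℝ) : ℂ), ((r : ℝ) : ℂ)) := by
    refine Prod.ext ?_ ?_
    · change ((-τ : ℝ) : ℂ) + (1 / 2 : ℝ) • ((2 * τ : ℝ) : ℂ) = ((0 : ℝ) : ℂ)
      rw [Complex.real_smul]
      push_cast
      ring
    · change ((r - τ : ℝ) : ℂ) + (1 / 2 : ℝ) • ((2 * τ : ℝ) : ℂ) = ((r : ℝ) : ℂ)
      rw [Complex.real_smul]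
      push_cast
      ring
  have e2 : ((((-τ : ℝ) : ℂ), ((r - τ : ℝ) : ℂ)) : ℂ × ℂ) +
      ((((2 * τ : ℝ) : ℂ), ((2 * τ : ℝ) : ℂ)) : ℂ × ℂ) = (((τ : ℝ) : ℂ), ((r + τ : ℝ) : ℂ)) := by
    refine Prod.ext ?_ ?_
    · change ((-τ : ℝ) : ℂ) + ((2 * τ : ℝ) : ℂ) = ((τ : ℝ) : ℂ)
      push_cast
      ring
    · change ((r - τ : ℝ) : ℂ) + ((2 * τ : ℝ) : ℂ) = ((r + τ : ℝ) : ℂ)
      push_cast
      ring
  rw [e1, e2, Xy_w, Xy_w, Xy_w, abs_zero, abs_neg, abs_of_pos hτ,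
    abs_of_nonneg (by linarith : 0 ≤ r), abs_of_nonneg (by linarith : 0 ≤ r - τ),
    abs_of_nonneg (by linarith : 0 ≤ r + τ)] at h
  have f1 : (0 : ℝ) + r = r := zero_add r
  have f2 : (0 : ℝ) - r = -r := zero_sub r
  have f3 : τ + (r - τ) = r := by ring
  have f4 : τ - (r - τ) = -r + 2 * τ := by ring
  have f5 : τ + (r + τ) = r + 2 * τ := by ring
  have f6 : τ - (r + τ) = -r := by ring
  rw [f1, f2, f3, f4, f5, f6] at h
  linarith

theorem Xy_bd {D : Da} (hD : Reg D) (hR : RCc D.w) {r : ℝ} (hr : 0 < r) : 0 ≤ D.X r (-r) := by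
  have e1 : HasDerivAt (fun τ : ℝ => D.g r (-r + 2 * τ)) (D.gv r (-r) * 2) 0 := by
    have h1 : HasDerivAt (fun v => D.g r v) (D.gv r (-r)) (-r + 2 * 0) := by
      rw [mul_zero, add_zero]
      exact Xy_dgv hD r (-r)
    have h2 : HasDerivAt (fun τ : ℝ => -r + 2 * τ) 2 0 := by
      simpa using ((hasDerivAt_id (0 : ℝ)).const_mul 2).const_add (-r)
    exact h1.comp (0 : ℝ) h2
  have e2 : HasDerivAt (fun τ : ℝ => D.g (r + 2 * τ) (-r)) (D.gs r (-r) * 2) 0 := by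
    have h1 : HasDerivAt (fun s => D.g s (-r)) (D.gs r (-r)) (r + 2 * 0) := by
      rw [mul_zero, add_zero]
      exact Xy_dgs hD r (-r)
    have h2 : HasDerivAt (fun τ : ℝ => r + 2 * τ) 2 0 := by
      simpa using ((hasDerivAt_id (0 : ℝ)).const_mul 2).const_add r
    exact h1.comp (0 : ℝ) h2
  have h := ((e1.add e2).sub_const (2 * D.g r (-r))).tendsto_slope_zero_right
  have h1 : 0 ≤ D.gv r (-r) * 2 + D.gs r (-r) * 2 := by
    refine ge_of_tendsto h ?_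
    have h2 : Ioc (0 : ℝ) r ∈ 𝓝[>] (0 : ℝ) := Ioc_mem_nhdsGT hr
    filter_upwards [h2] with τ hτ
    have h3 := Xy_mid (D := D) hR hτ.1 hτ.2
    rw [smul_eq_mul]
    refine mul_nonneg (inv_nonneg.2 hτ.1.le) ?_
    change 0 ≤ (D.g r (-r + 2 * (0 + τ)) + D.g (r + 2 * (0 + τ)) (-r) - 2 * D.g r (-r)) -
      (D.g r (-r + 2 * 0) + D.g (r + 2 * 0) (-r) - 2 * D.g r (-r))
    rw [zero_add, mul_zero, add_zero, add_zero]
    linarith
  unfold Da.X
  have h2 : (r + -r) * D.gsv r (-r) = 0 := by ring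
  rw [h2]
  linarith

theorem Xy_bd0 {D : Da} (hD : Reg D) (hR : RCc D.w) {r : ℝ} (hr : 0 ≤ r) : 0 ≤ D.X r (-r) := by
  rcases hr.eq_or_lt with h0 | h0
  · rw [← h0]
    have ca : Continuous D.a := continuous_iff_continuousAt.2 fun x => (hD.a1 x).continuousAt
    have cb1 : Continuous D.b1 := continuous_iff_continuousAt.2 fun x => (hD.b2 x).continuousAt
    have ch1 : Continuous D.h1 := continuous_iff_continuousAt.2 fun x => (hD.h2 x).continuousAt
    have cc : Continuous D.c := continuous_iff_continuousAt.2 fun x => (hD.c1 x).continuousAt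
    have ca1 : Continuous D.a1 := continuous_iff_continuousAt.2 fun x => (hD.a2 x).continuousAt
    have cc1 : Continuous D.c1 := continuous_iff_continuousAt.2 fun x => (hD.c2 x).continuousAt
    have hc : Continuous (fun r : ℝ => D.X r (-r)) := by
      unfold Da.X Da.gs Da.gv Da.gsv
      fun_prop
    have ht : Tendsto (fun r : ℝ => D.X r (-r)) (𝓝[>] 0) (𝓝 (D.X 0 (-0))) :=
      (hc.tendsto 0).mono_left nhdsWithin_le_nhds
    refine ge_of_tendsto ht ?_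
    filter_upwards [self_mem_nhdsWithin] with x hx
    exact Xy_bd hD hR hx
  · exact Xy_bd hD hR h0

theorem Xy_X {D : Da} (hD : Reg D) (hR : RCc D.w)
    (hss : ∀ s v, |v| ≤ s → 0 < s → 0 ≤ D.gss s v) (s v : ℝ) (hvs : |v| ≤ s) (hv : v ≤ 0) :
    0 ≤ D.X s v := by
  have h1 := Xy_bd0 hD hR (neg_nonneg.2 hv)
  rw [neg_neg] at h1
  refine h1.trans ?_
  have hd : ∀ x, HasDerivAt (fun s => D.X s v) (D.gss x (-x)) x := fun x => Xy_dX hD x v
  have hm : MonotoneOn (fun s => D.X s v) (Ici 0) := by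
    refine monotoneOn_of_deriv_nonneg (convex_Ici 0)
      (fun x _ => (hd x).continuousAt.continuousWithinAt)
      (fun x _ => (hd x).differentiableAt.differentiableWithinAt) (fun x hx => ?_)
    rw [interior_Ici] at hx
    rw [(hd x).deriv]
    exact hss x (-x) (by rw [abs_neg, abs_of_pos hx]) hx
  have h2 : -v ≤ s := (neg_le_abs v).trans hvs
  exact hm (neg_nonneg.2 hv) ((neg_nonneg.2 hv).trans h2) h2

theorem Xy_mirror {D : Da} (hD : Reg D) : Reg D.mirror where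
  a1 x := by
    have h := (hD.a1 (-x)).comp x (hasDerivAt_neg x)
    refine h.congr_deriv ?_
    change D.a1 (-x) * -1 = -D.a1 (-x)
    ring
  b1 x := by
    have h := (hD.b1 (-x)).comp x (hasDerivAt_neg x)
    refine h.congr_deriv ?_
    change D.b1 (-x) * -1 = -D.b1 (-x)
    ring
  h1 x := hD.h1 x
  c1 x := (hD.c1 x).neg
  a2 x := by
    have h := ((hD.a2 (-x)).comp x (hasDerivAt_neg x)).neg
    refine h.congr_deriv ?_
    change -(D.a2 (-x) * -1) = D.a2 (-x)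
    ring
  b2 x := by
    have h := ((hD.b2 (-x)).comp x (hasDerivAt_neg x)).neg
    refine h.congr_deriv ?_
    change -(D.b2 (-x) * -1) = D.b2 (-x)
    ring
  h2 x := hD.h2 x
  c2 x := (hD.c2 x).neg
  la R := by
    obtain ⟨L, hL⟩ := hD.la R
    refine ⟨L, fun x y hx hy => ?_⟩
    have h := hL (-x) (-y) (by rwa [abs_neg]) (by rwa [abs_neg])
    have e : |(-x) - (-y)| = |x - y| := by
      rw [← abs_neg]
      congr 1
      ring
    rw [e] at h
    exact h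
  lb R := by
    obtain ⟨L, hL⟩ := hD.lb R
    refine ⟨L, fun x y hx hy => ?_⟩
    have h := hL (-x) (-y) (by rwa [abs_neg]) (by rwa [abs_neg])
    have e : |(-x) - (-y)| = |x - y| := by
      rw [← abs_neg]
      congr 1
      ring
    rw [e] at h
    exact h

theorem Xy_mirror_w (D : Da) (F : ℂ × ℂ) : D.mirror.w F = D.w (F.2, F.1) := by
  unfold Da.w Da.g Da.mirror
  simp only
  have e1 : ‖F.1‖ + ‖F.2‖ = ‖F.2‖ + ‖F.1‖ := add_comm _ _
  have e2 : -(‖F.1‖ - ‖F.2‖) = ‖F.2‖ - ‖F.1‖ := by ring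
  rw [e1, e2]
  ring

theorem Xy_mirror_R {D : Da} (hR : RCc D.w) : RCc D.mirror.w := by
  intro F H hFH t ht0 ht1
  rw [Xy_mirror_w, Xy_mirror_w, Xy_mirror_w]
  exact hR (F.2, F.1) (H.2, H.1) hFH.symm t ht0 ht1

theorem xy {D : Da} (hD : Reg D) (hR : RCc D.w)
    (hss : ∀ s v, |v| ≤ s → 0 < s → 0 ≤ D.gss s v) :
    (∀ s v, |v| ≤ s → 0 < s → v ≤ 0 → 0 ≤ D.X s v) ∧
    (∀ s v, |v| ≤ s → 0 < s → 0 ≤ v → 0 ≤ D.Y s v) := by
  refine ⟨fun s v h1 _ h3 => Xy_X hD hR hss s v h1 h3, fun s v h1 _ h3 => ?_⟩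
  have h := Xy_X (D := D.mirror) (Xy_mirror hD) (Xy_mirror_R hR) (fun s v hv hs => ?_) s (-v)
    (by rwa [abs_neg]) (by linarith)
  · have e : D.mirror.X s (-v) = D.Y s v := by
      unfold Da.X Da.Y Da.gs Da.gv Da.gsv Da.mirror
      simp only [neg_neg]
      ring
    rwa [e] at h
  · have h4 := hss s (-v) (by rwa [abs_neg]) hs
    have e : D.mirror.gss s v = D.gss s (-v) := by
      unfold Da.gss Da.mirror
      simp only
      ring
    rw [e]
    exact h4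

end Pool.Agent.TH937.FF4
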